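import Mathlib

/-!
# Joint realisability of lower and Assouad spectra

The set is a product `F = F₁^d`, where `F₁ ⊆ ℝ` is a union of far apart units.  Each unit consists
of a homogeneous background (a set of binary expansions with prescribed digit density) and one
isolated cluster of diameter `2^-a` at distance `2^-a` from it, whose binary digits below level `T`
number `⌊T ψ(a/T)⌋`, with `ψ = φL/d` (poor cluster) or `ψ = φA/d` (rich cluster).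
-/

open Set Filter Topology

namespace Pool.Agent.Results.MP_8b4afa_an.JointRealisable

/-! ### The objects of the statement -/

/-- Euclidean space `ℝ^d`. -/
abbrev Rd (d : ℕ) := EuclideanSpace ℝ (Fin d)

/-- `N_r(E)`: the least number of closed balls of radius `r` (with centres anywhere in `ℝ^d`)
needed to cover the bounded set `E`. -/
noncomputable def coverNum {d : ℕ} (r : ℝ) (E : Set (Rd d)) : ℕ :=
  sInf {n : ℕ | ∃ t : Finset (Rd d), t.card = n ∧ E ⊆ ⋃ c ∈ t, Metric.closedBall c r}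

/-- The lower spectrum `dim_L^θ F`: the supremum of all `s ≥ 0` for which there is `C > 0` with
`N_r(B(x, r^θ) ∩ F) ≥ C (r^θ / r)^s` for all `0 < r < 1` and `x ∈ F`. -/
noncomputable def lowerSpectrum {d : ℕ} (F : Set (Rd d)) (θ : ℝ) : ℝ :=
  sSup {s : ℝ | 0 ≤ s ∧ ∃ C : ℝ, 0 < C ∧ ∀ r ∈ Ioo (0:ℝ) 1, ∀ x ∈ F,
    C * (r ^ θ / r) ^ s ≤ coverNum r (Metric.closedBall x (r ^ θ) ∩ F)}

/-- The Assouad spectrum `dim_A^θ F`: the infimum of all `s ≥ 0` for which there is `C > 0` with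
`N_r(B(x, r^θ) ∩ F) ≤ C (r^θ / r)^s` for all `0 < r < 1` and `x ∈ F`. -/
noncomputable def assouadSpectrum {d : ℕ} (F : Set (Rd d)) (θ : ℝ) : ℝ :=
  sInf {s : ℝ | 0 ≤ s ∧ ∃ C : ℝ, 0 < C ∧ ∀ r ∈ Ioo (0:ℝ) 1, ∀ x ∈ F,
    (coverNum r (Metric.closedBall x (r ^ θ) ∩ F) : ℝ) ≤ C * (r ^ θ / r) ^ s}

/-- Condition (J) of the problem, for all `λ = l` and `θ = t` in `(0,1]`. -/
def CondJ (φL φA : ℝ → ℝ) : Prop :=
  ∀ l ∈ Ioc (0:ℝ) 1, ∀ t ∈ Ioc (0:ℝ) 1,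
    (φL t ≤ φL (l * t) - t * φL l ∧ φL (l * t) - t * φL l ≤ φA t) ∧
      (t * φL l ≤ φA (l * t) - φA t ∧ φA (l * t) - φA t ≤ t * φA l)

/-- A weaker condition (implied by (J), see `condJ_imp`): the left inequality
`θ φL(λ) ≤ φA(λθ) - φA(θ)` of (J) is replaced by `φL(θ) ≤ φA(λθ) - θ φA(λ)` and
`φA(θ) ≤ φA(λθ)`. -/
def CondJ' (φL φA : ℝ → ℝ) : Prop :=
  ∀ l ∈ Ioc (0:ℝ) 1, ∀ t ∈ Ioc (0:ℝ) 1,
    (φL t ≤ φL (l * t) - t * φL l ∧ φL (l * t) - t * φL l ≤ φA t) ∧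
      (φL t ≤ φA (l * t) - t * φA l ∧ φA t ≤ φA (l * t) ∧ φA (l * t) - φA t ≤ t * φA l)

/-! ### Binary digit sets -/

/-- binary point with digit set `E` (digit `n` has weight `2^-(n+1)`) -/
noncomputable def pt (E : Finset ℕ) : ℝ := ∑ n ∈ E, (1 / 2 : ℝ) ^ (n + 1)

theorem pt_nonneg (E : Finset ℕ) : 0 ≤ pt E := Finset.sum_nonneg fun _ _ => by positivity

theorem pt_Ico (S T : ℕ) (h : S ≤ T) : pt (Finset.Ico S T) = (1 / 2 : ℝ) ^ S - (1 / 2) ^ T := by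
  induction T, h using Nat.le_induction with
  | base => simp [pt]
  | succ n hn ih =>
    unfold pt at ih ⊢
    rw [Finset.sum_Ico_succ_top (by omega), ih]
    ring

theorem pt_lt (E : Finset ℕ) (S : ℕ) (h : ∀ n ∈ E, S ≤ n) : pt E < (1 / 2 : ℝ) ^ S := by
  obtain ⟨T, hT⟩ := E.exists_nat_subset_range
  have hsub : E ⊆ Finset.Ico S (max S T) := by
    intro n hn
    rw [Finset.mem_Ico]
    have := Finset.mem_range.1 (hT hn)
    exact ⟨h n hn, lt_of_lt_of_le this (le_max_right _ _)⟩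
  calc pt E ≤ pt (Finset.Ico S (max S T)) :=
        Finset.sum_le_sum_of_subset_of_nonneg hsub fun _ _ _ => by positivity
    _ = (1 / 2 : ℝ) ^ S - (1 / 2) ^ (max S T) := pt_Ico _ _ (le_max_left _ _)
    _ < _ := by
      have : (0:ℝ) < (1 / 2) ^ (max S T) := by positivity
      linarith

theorem pt_union {E E' : Finset ℕ} (h : Disjoint E E') : pt (E ∪ E') = pt E + pt E' :=
  Finset.sum_union h

/-- integer value of digits below `T` -/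
def vl (T : ℕ) (E : Finset ℕ) : ℕ := ∑ n ∈ E, 2 ^ (T - 1 - n)

theorem pt_eq_vl (T : ℕ) (E : Finset ℕ) (h : ∀ n ∈ E, n < T) : pt E = (vl T E : ℝ) * (1 / 2) ^ T := by
  unfold pt vl
  push_cast
  rw [Finset.sum_mul]
  apply Finset.sum_congr rfl
  intro n hn
  have hn' := h n hn
  have e : (1 / 2 : ℝ) ^ T = (1 / 2) ^ (T - 1 - n) * (1 / 2) ^ (n + 1) := by
    rw [← pow_add]; congr 1; omega
  rw [e, ← mul_assoc, ← mul_pow]
  norm_num

theorem vl_inj (T : ℕ) {E E' : Finset ℕ} (h : ∀ n ∈ E, n < T) (h' : ∀ n ∈ E', n < T)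
    (he : vl T E = vl T E') : E = E' := by
  have key : ∀ E : Finset ℕ, (∀ n ∈ E, n < T) → vl T E = ∑ i ∈ E.image (fun n => T - 1 - n), 2 ^ i := by
    intro E hE
    unfold vl
    rw [Finset.sum_image]
    intro a ha b hb hab
    have := hE a ha
    have := hE b hb
    simp only at hab
    omega
  rw [key E h, key E' h'] at he
  have hi := Finset.geomSum_injective (n := 2) le_rfl he
  have inv : ∀ E : Finset ℕ, (∀ n ∈ E, n < T) → (E.image (fun n => T - 1 - n)).image (fun n => T - 1 - n) = E := by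
    intro E hE
    ext n
    simp only [Finset.mem_image, exists_exists_and_eq_and]
    constructor
    · rintro ⟨a, ha, rfl⟩
      have := hE a ha
      have e : T - 1 - (T - 1 - a) = a := by omega
      rwa [e]
    · intro hn
      have := hE n hn
      exact ⟨n, hn, by omega⟩
  rw [← inv E h, ← inv E' h', hi]

theorem pt_sep (T : ℕ) {E E' : Finset ℕ} (h : ∀ n ∈ E, n < T) (h' : ∀ n ∈ E', n < T)
    (hne : E ≠ E') : (1 / 2 : ℝ) ^ T ≤ |pt E - pt E'| := by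
  rw [pt_eq_vl T E h, pt_eq_vl T E' h', ← sub_mul, abs_mul, abs_of_nonneg (a := (1 / 2 : ℝ) ^ T) (by positivity)]
  have h1 : (vl T E : ℤ) - (vl T E' : ℤ) ≠ 0 := by
    intro h0
    exact hne (vl_inj T h h' (by exact_mod_cast sub_eq_zero.1 h0))
  have h2 : (1:ℝ) ≤ |(vl T E : ℝ) - (vl T E' : ℝ)| := by
    have := Int.one_le_abs h1
    exact_mod_cast this
  have h3 : (0:ℝ) ≤ (1 / 2) ^ T := by positivity
  nlinarith

/-- digit function: monotone with increments at most one -/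
def Dig (g : ℕ → ℕ) : Prop := ∀ n, g n ≤ g (n + 1) ∧ g (n + 1) ≤ g n + 1

/-- the set of digits used -/
noncomputable def digs (g : ℕ → ℕ) (S T : ℕ) : Finset ℕ := (Finset.Ico S T).filter (fun n => g n < g (n + 1))

theorem card_digs {g : ℕ → ℕ} (hg : Dig g) (S T : ℕ) (h : S ≤ T) : (digs g S T).card + g S = g T := by
  induction T, h using Nat.le_induction with
  | base => simp [digs]
  | succ n hn ih =>
    unfold digs at ih ⊢
    have e : Finset.Ico S (n + 1) = insert n (Finset.Ico S n) := Nat.Ico_succ_right_eq_insert_Ico hn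
    rw [e, Finset.filter_insert]
    have := hg n
    split_ifs with hlt
    · rw [Finset.card_insert_of_notMem (by simp)]
      omega
    · omega

theorem Dig.mono {g : ℕ → ℕ} (hg : Dig g) : Monotone g := monotone_nat_of_le_succ fun n => (hg n).1

/-- the digit set in `ℝ` -/
def DS (g : ℕ → ℕ) : Set ℝ := {y | ∃ E : Finset ℕ, (∀ n ∈ E, g n < g (n + 1)) ∧ y = pt E}

theorem zero_mem_DS (g : ℕ → ℕ) : (0:ℝ) ∈ DS g := ⟨∅, by simp, by simp [pt]⟩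

theorem DS_nonneg {g : ℕ → ℕ} {y : ℝ} (hy : y ∈ DS g) : 0 ≤ y := by
  obtain ⟨E, -, rfl⟩ := hy; exact pt_nonneg E

theorem DS_lt {g : ℕ → ℕ} {y : ℝ} (hy : y ∈ DS g) (a : ℕ) (ha : ∀ n < a, g (n + 1) ≤ g n) :
    y < (1 / 2 : ℝ) ^ a := by
  obtain ⟨E, hE, rfl⟩ := hy
  apply pt_lt
  intro n hn
  by_contra hcon
  push Not at hcon
  have := ha n hcon
  have := hE n hn
  omega

theorem pt_split (E : Finset ℕ) (S : ℕ) :
    pt E = pt (E.filter (fun n => n < S)) + pt (E.filter (fun n => ¬ n < S)) := by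
  unfold pt
  rw [Finset.sum_filter_add_sum_filter_not]

theorem DS_upper {g : ℕ → ℕ} (hg : Dig g) (x : ℝ) (S T : ℕ) (h : S ≤ T) :
    ∃ C : Finset ℝ, C.card ≤ 3 * 2 ^ (g T - g S) ∧
      ∀ y ∈ DS g, |y - x| ≤ (1 / 2 : ℝ) ^ S → ∃ c ∈ C, |y - c| ≤ (1 / 2 : ℝ) ^ T := by
  classical
  obtain ⟨f, hf⟩ : ∃ f : ℤ, f = ⌊(2:ℝ) ^ S * x⌋ := ⟨_, rfl⟩
  refine ⟨((Finset.Icc (f - 1) (f + 1)) ×ˢ (digs g S T).powerset).image
    (fun q => (q.1 : ℝ) * (1 / 2) ^ S + pt q.2), ?_, ?_⟩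
  · refine Finset.card_image_le.trans ?_
    rw [Finset.card_product, Finset.card_powerset]
    have e1 : (Finset.Icc (f - 1) (f + 1)).card = 3 := by simp; omega
    have e2 : (digs g S T).card = g T - g S := by have := card_digs hg S T h; omega
    rw [e1, e2]
  · rintro y ⟨E, hE, rfl⟩ hy
    have hlow := pt_eq_vl S (E.filter (fun n => n < S)) (by simp)
    have hhigh1 := pt_nonneg (E.filter (fun n => ¬ n < S))
    have hhigh2 := pt_lt (E.filter (fun n => ¬ n < S)) S (by simp)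
    have hsp := pt_split E S
    have hmid : pt (E.filter (fun n => ¬ n < S)) =
        pt ((E.filter (fun n => ¬ n < S)).filter (fun n => n < T)) +
        pt ((E.filter (fun n => ¬ n < S)).filter (fun n => ¬ n < T)) := pt_split _ T
    have htail1 := pt_nonneg ((E.filter (fun n => ¬ n < S)).filter (fun n => ¬ n < T))
    have htail2 := pt_lt ((E.filter (fun n => ¬ n < S)).filter (fun n => ¬ n < T)) T (by simp)
    refine ⟨((vl S (E.filter (fun n => n < S)) : ℤ) : ℝ) * (1 / 2) ^ S +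
      pt ((E.filter (fun n => ¬ n < S)).filter (fun n => n < T)), ?_, ?_⟩
    · rw [Finset.mem_image]
      refine ⟨((vl S (E.filter (fun n => n < S)) : ℤ), (E.filter (fun n => ¬ n < S)).filter (fun n => n < T)), ?_, rfl⟩
      rw [Finset.mem_product, Finset.mem_powerset, Finset.mem_Icc]
      have hpow : (2:ℝ) ^ S * (1 / 2) ^ S = 1 := by rw [← mul_pow]; norm_num
      have hpos : (0:ℝ) < 2 ^ S := by positivity
      obtain ⟨v, hv⟩ : ∃ v : ℕ, v = vl S (E.filter (fun n => n < S)) := ⟨_, rfl⟩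
      rw [← hv] at hlow ⊢
      have hfl := Int.floor_le ((2:ℝ) ^ S * x)
      have hfu := Int.lt_floor_add_one ((2:ℝ) ^ S * x)
      rw [← hf] at hfl hfu
      rw [abs_le] at hy
      have k1 : (v : ℝ) - 1 ≤ 2 ^ S * x := by
        have : (v:ℝ) * (1 / 2) ^ S - (1 / 2) ^ S ≤ x := by linarith [hy.2]
        calc (v:ℝ) - 1 = 2 ^ S * ((v:ℝ) * (1 / 2) ^ S - (1 / 2) ^ S) := by
              rw [mul_sub, mul_comm (v:ℝ), ← mul_assoc, hpow]; ring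
          _ ≤ _ := by gcongr
      have k2 : 2 ^ S * x < (v:ℝ) + 2 := by
        have : x < (v:ℝ) * (1 / 2) ^ S + 2 * (1 / 2) ^ S := by linarith [hy.1]
        calc 2 ^ S * x < 2 ^ S * ((v:ℝ) * (1 / 2) ^ S + 2 * (1 / 2) ^ S) := by gcongr
          _ = _ := by
              rw [mul_add, mul_comm (v:ℝ), ← mul_assoc, hpow, mul_left_comm, hpow]; ring
      refine ⟨⟨?_, ?_⟩, ?_⟩
      · have : (f : ℝ) < v + 2 := by linarith
        have h3 : f < (v:ℤ) + 2 := by exact_mod_cast this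
        simp only
        omega
      · have : (v : ℝ) < f + 2 := by linarith
        have h3 : (v:ℤ) < f + 2 := by exact_mod_cast this
        simp only
        omega
      · intro n hn
        rw [Finset.mem_filter, Finset.mem_filter] at hn
        unfold digs
        rw [Finset.mem_filter, Finset.mem_Ico]
        exact ⟨⟨by omega, hn.2⟩, hE n hn.1.1⟩
    · rw [hsp, hlow, hmid]
      push_cast
      rw [abs_le]
      constructor <;> linarith [show (0:ℝ) < (1 / 2) ^ T by positivity]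

theorem DS_lower {g : ℕ → ℕ} (hg : Dig g) {x : ℝ} (hx : x ∈ DS g) (S T : ℕ) (h : S ≤ T) :
    ∃ C : Finset ℝ, C.card = 2 ^ (g T - g S) ∧ (∀ p ∈ C, p ∈ DS g ∧ |p - x| ≤ (1 / 2 : ℝ) ^ S) ∧
      ∀ p ∈ C, ∀ q ∈ C, p ≠ q → (1 / 2 : ℝ) ^ T ≤ |p - q| := by
  classical
  obtain ⟨E, hE, rfl⟩ := hx
  have hmem : ∀ M ∈ (digs g S T).powerset, ∀ n ∈ M, S ≤ n ∧ n < T ∧ g n < g (n + 1) := by
    intro M hM n hn
    have := Finset.mem_powerset.1 hM hn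
    unfold digs at this
    rw [Finset.mem_filter, Finset.mem_Ico] at this
    exact ⟨this.1.1, this.1.2, this.2⟩
  have hsep : ∀ M ∈ (digs g S T).powerset, ∀ M' ∈ (digs g S T).powerset, M ≠ M' →
      (1 / 2 : ℝ) ^ T ≤ |(pt (E.filter (fun n => n < S)) + pt M) - (pt (E.filter (fun n => n < S)) + pt M')| := by
    intro M hM M' hM' hne
    have := pt_sep T (fun n hn => (hmem M hM n hn).2.1) (fun n hn => (hmem M' hM' n hn).2.1) hne
    rwa [add_sub_add_left_eq_sub]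
  refine ⟨(digs g S T).powerset.image (fun M => pt (E.filter (fun n => n < S)) + pt M), ?_, ?_, ?_⟩
  · rw [Finset.card_image_of_injOn, Finset.card_powerset]
    · have := card_digs hg S T h
      congr 1
      omega
    · intro M hM M' hM' he
      by_contra hne
      have := hsep M hM M' hM' hne
      simp only at he
      rw [he, sub_self, abs_zero] at this
      have h2 : (0:ℝ) < (1 / 2) ^ T := by positivity
      linarith
  · intro p hp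
    rw [Finset.mem_image] at hp
    obtain ⟨M, hM, rfl⟩ := hp
    constructor
    · refine ⟨E.filter (fun n => n < S) ∪ M, ?_, ?_⟩
      · intro n hn
        rw [Finset.mem_union, Finset.mem_filter] at hn
        rcases hn with hn | hn
        · exact hE n hn.1
        · exact (hmem M hM n hn).2.2
      · rw [pt_union]
        rw [Finset.disjoint_left]
        intro n hn hn'
        rw [Finset.mem_filter] at hn
        have := (hmem M hM n hn').1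
        omega
    · rw [pt_split E S, add_sub_add_left_eq_sub]
      have h1 := pt_nonneg M
      have h2 := pt_lt M S (fun n hn => (hmem M hM n hn).1)
      have h3 := pt_nonneg (E.filter (fun n => ¬ n < S))
      have h4 := pt_lt (E.filter (fun n => ¬ n < S)) S (by simp)
      rw [abs_le]
      constructor <;> linarith
  · intro p hp q hq hpq
    rw [Finset.mem_image] at hp hq
    obtain ⟨M, hM, rfl⟩ := hp
    obtain ⟨M', hM', rfl⟩ := hq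
    exact hsep M hM M' hM' (fun h => hpq (by rw [h]))

/-! ### Admissible pairs and digit functions -/

/-- admissible pairs (one dimensional normalisation) -/
structure Adm (fL fA : ℝ → ℝ) : Prop where
  L0 : ∀ t ∈ Ioc (0:ℝ) 1, 0 ≤ fL t
  A1 : fA 1 = 0
  lip : ∀ s ∈ Ioc (0:ℝ) 1, ∀ t ∈ Ioc (0:ℝ) 1, |fA s - fA t| ≤ |s - t|
  anti : ∀ s ∈ Ioc (0:ℝ) 1, ∀ t ∈ Ioc (0:ℝ) 1, s ≤ t → fA t ≤ fA s
  J1 : ∀ l ∈ Ioc (0:ℝ) 1, ∀ t ∈ Ioc (0:ℝ) 1, fL t ≤ fL (l * t) - t * fL l ∧ fL (l * t) - t * fL l ≤ fA t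
  J2 : ∀ l ∈ Ioc (0:ℝ) 1, ∀ t ∈ Ioc (0:ℝ) 1, fL t ≤ fA (l * t) - t * fA l ∧ fA (l * t) - t * fA l ≤ fA t

def psi (fL fA : ℝ → ℝ) (b : Bool) : ℝ → ℝ := if b then fA else fL

theorem mul_mem_Ioc {l t : ℝ} (hl : l ∈ Ioc (0:ℝ) 1) (ht : t ∈ Ioc (0:ℝ) 1) : l * t ∈ Ioc (0:ℝ) 1 :=
  ⟨mul_pos hl.1 ht.1, by nlinarith [hl.1, hl.2, ht.1, ht.2]⟩

theorem one_mem_Ioc : (1:ℝ) ∈ Ioc (0:ℝ) 1 := ⟨one_pos, le_rfl⟩

section
variable {fL fA : ℝ → ℝ} (h : Adm fL fA)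
include h

theorem Adm.L1 : fL 1 = 0 := by
  have h1 := (h.J1 1 one_mem_Ioc 1 one_mem_Ioc).1
  have h2 := h.L0 1 one_mem_Ioc
  simp at h1
  linarith

theorem Adm.A_le {t : ℝ} (ht : t ∈ Ioc (0:ℝ) 1) : fA t ≤ 1 - t := by
  have h1 := h.lip t ht 1 one_mem_Ioc
  rw [h.A1, sub_zero, abs_of_nonpos (show t - 1 ≤ 0 by linarith [ht.2])] at h1
  have := le_abs_self (fA t)
  linarith

theorem Adm.L_anti {s t : ℝ} (hs : s ∈ Ioc (0:ℝ) 1) (ht : t ∈ Ioc (0:ℝ) 1) (hst : s ≤ t) : fL t ≤ fL s := by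
  have hl : s / t ∈ Ioc (0:ℝ) 1 := ⟨div_pos hs.1 ht.1, (div_le_one ht.1).2 hst⟩
  have h1 := (h.J1 _ hl t ht).1
  rw [div_mul_cancel₀ _ ht.1.ne'] at h1
  have h2 := h.L0 _ hl
  nlinarith [ht.1]

theorem Adm.L_le_A {t : ℝ} (ht : t ∈ Ioc (0:ℝ) 1) : fL t ≤ fA t := by
  have h1 := h.J1 1 one_mem_Ioc t ht
  rw [h.L1] at h1
  simp at h1
  linarith [h1]

theorem Adm.L_le {t : ℝ} (ht : t ∈ Ioc (0:ℝ) 1) : fL t ≤ 1 - t := (h.L_le_A ht).trans (h.A_le ht)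

theorem Adm.psi1 (b : Bool) : psi fL fA b 1 = 0 := by
  cases b <;> simp [psi, h.A1, h.L1]

theorem Adm.psiJ (b : Bool) {l t : ℝ} (hl : l ∈ Ioc (0:ℝ) 1) (ht : t ∈ Ioc (0:ℝ) 1) :
    fL t ≤ psi fL fA b (l * t) - t * psi fL fA b l ∧ psi fL fA b (l * t) - t * psi fL fA b l ≤ fA t := by
  cases b
  · simpa [psi] using h.J1 l hl t ht
  · simpa [psi] using h.J2 l hl t ht

theorem Adm.psi_ge (b : Bool) {t : ℝ} (ht : t ∈ Ioc (0:ℝ) 1) : fL t ≤ psi fL fA b t := by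
  cases b
  · simp [psi]
  · simpa [psi] using h.L_le_A ht

theorem Adm.psi_le (b : Bool) {t : ℝ} (ht : t ∈ Ioc (0:ℝ) 1) : psi fL fA b t ≤ fA t := by
  cases b
  · simpa [psi] using h.L_le_A ht
  · simp [psi]

end

noncomputable def cz (fL : ℝ → ℝ) : ℝ := sSup (fL '' Ioc (0:ℝ) 1)

section
variable {fL fA : ℝ → ℝ} (h : Adm fL fA)
include h

theorem Adm.bdd : BddAbove (fL '' Ioc (0:ℝ) 1) := by
  refine ⟨1, ?_⟩
  rintro _ ⟨t, ht, rfl⟩
  linarith [h.L_le ht, ht.1]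

theorem Adm.le_cz {t : ℝ} (ht : t ∈ Ioc (0:ℝ) 1) : fL t ≤ cz fL := le_csSup h.bdd ⟨t, ht, rfl⟩

theorem Adm.cz_nonneg : 0 ≤ cz fL := (h.L0 1 one_mem_Ioc).trans (h.le_cz one_mem_Ioc)

theorem Adm.cz_le_one : cz fL ≤ 1 := by
  apply csSup_le (⟨_, 1, one_mem_Ioc, rfl⟩ : (fL '' Ioc (0:ℝ) 1).Nonempty)
  rintro _ ⟨t, ht, rfl⟩
  linarith [h.L_le ht, ht.1]

theorem Adm.L_le_cz {t : ℝ} (ht : t ∈ Ioc (0:ℝ) 1) : fL t ≤ (1 - t) * cz fL := by
  have h1 : ∀ l ∈ Ioc (0:ℝ) 1, fL l ≤ (cz fL - fL t) / t := by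
    intro l hl
    rw [le_div_iff₀ ht.1]
    have := (h.J1 l hl t ht).1
    have := h.le_cz (mul_mem_Ioc hl ht)
    linarith
  have h2 : cz fL ≤ (cz fL - fL t) / t := by
    apply csSup_le (⟨_, 1, one_mem_Ioc, rfl⟩ : (fL '' Ioc (0:ℝ) 1).Nonempty)
    rintro _ ⟨l, hl, rfl⟩
    exact h1 l hl
  rw [le_div_iff₀ ht.1] at h2
  linarith

theorem Adm.cz_le_A {t : ℝ} (ht : t ∈ Ioc (0:ℝ) 1) : (1 - t) * cz fL ≤ fA t := by
  refine le_of_forall_pos_le_add fun ε hε => ?_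
  obtain ⟨_, ⟨l, hl, rfl⟩, hlt⟩ := exists_lt_of_lt_csSup (s := fL '' Ioc (0:ℝ) 1) ⟨_, 1, one_mem_Ioc, rfl⟩
    (show cz fL - ε < sSup (fL '' Ioc (0:ℝ) 1) by unfold cz; linarith)
  have h1 := (h.J1 l hl t ht).2
  have h2 : fL l ≤ fL (l * t) := h.L_anti (mul_mem_Ioc hl ht) hl (by nlinarith [hl.1, ht.2])
  have h3 := h.le_cz hl
  nlinarith [ht.1]

end

theorem div_mem {a T : ℕ} (ha : 1 ≤ a) (hT : a ≤ T) : (a:ℝ) / T ∈ Ioc (0:ℝ) 1 := by
  have h1 : (0:ℝ) < a := by exact_mod_cast ha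
  have h2 : (0:ℝ) < T := by exact_mod_cast (lt_of_lt_of_le ha hT)
  exact ⟨div_pos h1 h2, (div_le_one h2).2 (by exact_mod_cast hT)⟩

/-- background digit function -/
noncomputable def gB (fL : ℝ → ℝ) (T : ℕ) : ℕ := ⌊cz fL * T⌋₊

/-- cluster digit function -/
noncomputable def Gf (ψ : ℝ → ℝ) (a T : ℕ) : ℕ := if T ≤ a then 0 else ⌊(T:ℝ) * ψ (a / T)⌋₊

section
variable {fL fA : ℝ → ℝ} (h : Adm fL fA)
include h

theorem Adm.dig_gB : Dig (gB fL) := by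
  intro n
  unfold gB
  have h0 := h.cz_nonneg
  have h1 := h.cz_le_one
  constructor
  · apply Nat.floor_le_floor
    push_cast
    nlinarith
  · rw [← Nat.floor_add_one (by positivity)]
    apply Nat.floor_le_floor
    push_cast
    nlinarith

theorem Adm.incr (b : Bool) {a S T : ℕ} (ha : 1 ≤ a) (hS : a ≤ S) (hT : S ≤ T) :
    (T:ℝ) * fL (S / T) ≤ T * psi fL fA b (a / T) - S * psi fL fA b (a / S) ∧
      (T:ℝ) * psi fL fA b (a / T) - S * psi fL fA b (a / S) ≤ T * fA (S / T) := by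
  have h1 := h.psiJ b (div_mem ha hS) (div_mem (ha.trans hS) hT)
  have hSp : (0:ℝ) < S := by exact_mod_cast (lt_of_lt_of_le ha hS)
  have hTp : (0:ℝ) < T := by exact_mod_cast (lt_of_lt_of_le ha (hS.trans hT))
  have e : (a:ℝ) / S * (S / T) = a / T := by field_simp
  rw [e] at h1
  have e2 : (T:ℝ) * (psi fL fA b (a / T) - S / T * psi fL fA b (a / S)) =
      T * psi fL fA b (a / T) - S * psi fL fA b (a / S) := by field_simp
  constructor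
  · rw [← e2]; exact mul_le_mul_of_nonneg_left h1.1 hTp.le
  · rw [← e2]; exact mul_le_mul_of_nonneg_left h1.2 hTp.le

theorem Adm.Gf_eq (b : Bool) {a T : ℕ} (ha : 1 ≤ a) (hT : a ≤ T) :
    Gf (psi fL fA b) a T = ⌊(T:ℝ) * psi fL fA b (a / T)⌋₊ := by
  unfold Gf
  split_ifs with hle
  · have e : T = a := le_antisymm hle hT
    subst e
    have : (T:ℝ) ≠ 0 := by exact_mod_cast (by omega : T ≠ 0)
    rw [div_self this, h.psi1]
    simp
  · rfl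

theorem Adm.H_nonneg (b : Bool) {a T : ℕ} (ha : 1 ≤ a) (hT : a ≤ T) :
    0 ≤ (T:ℝ) * psi fL fA b (a / T) := by
  have h1 := div_mem ha hT
  have := h.psi_ge b h1
  have := h.L0 _ h1
  have : 0 ≤ psi fL fA b (a / T) := by linarith
  positivity

theorem Adm.dig_Gf (b : Bool) {a : ℕ} (ha : 1 ≤ a) : Dig (Gf (psi fL fA b) a) := by
  intro n
  rcases lt_or_ge n a with hn | hn
  · have h1 : Gf (psi fL fA b) a n = 0 := by unfold Gf; rw [if_pos (by omega)]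
    have h2 : Gf (psi fL fA b) a (n + 1) = 0 := by unfold Gf; rw [if_pos (by omega)]
    rw [h1, h2]; omega
  · rw [h.Gf_eq b ha hn, h.Gf_eq b ha (by omega : a ≤ n + 1)]
    have h1 := h.incr b ha hn (Nat.le_succ n)
    have h2 := div_mem (ha.trans hn) (Nat.le_succ n)
    have h3 := h.L0 _ h2
    have h4 := h.A_le h2
    have h5 : ((n + 1 : ℕ) : ℝ) * (1 - n / (n + 1 : ℕ)) = 1 := by
      push_cast; field_simp; ring
    have h6 : (0:ℝ) < (n + 1 : ℕ) := by positivity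
    have h7 : 0 ≤ ((n + 1 : ℕ) : ℝ) * fL (n / (n + 1 : ℕ)) := by positivity
    have h8 : ((n + 1 : ℕ) : ℝ) * fA (n / (n + 1 : ℕ)) ≤ 1 := by
      rw [← h5]; exact mul_le_mul_of_nonneg_left h4 h6.le
    simp only [Nat.succ_eq_add_one] at h1
    constructor
    · apply Nat.floor_le_floor
      linarith [h1.1]
    · rw [← Nat.floor_add_one (h.H_nonneg b ha hn)]
      apply Nat.floor_le_floor
      linarith [h1.2]

/-- background increments -/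
theorem Adm.gB_lower {S T : ℕ} (hS : 1 ≤ S) (hT : S ≤ T) :
    (T:ℝ) * fL (S / T) - 1 ≤ ((gB fL T - gB fL S : ℕ) : ℝ) := by
  have hm := h.dig_gB.mono hT
  rw [Nat.cast_sub hm]
  unfold gB
  have h0 := h.cz_nonneg
  have h1 := Nat.sub_one_lt_floor (cz fL * T)
  have h2 : ((⌊cz fL * S⌋₊ : ℕ) : ℝ) ≤ cz fL * S := Nat.floor_le (by positivity)
  have h3 := h.L_le_cz (div_mem hS hT)
  have hTp : (0:ℝ) < T := by exact_mod_cast (lt_of_lt_of_le hS hT)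
  have h4 : (T:ℝ) * fL (S / T) ≤ T * ((1 - S / T) * cz fL) := mul_le_mul_of_nonneg_left h3 hTp.le
  have h5 : (T:ℝ) * ((1 - S / T) * cz fL) = cz fL * T - cz fL * S := by field_simp
  linarith

theorem Adm.gB_upper {S T : ℕ} (hS : 1 ≤ S) (hT : S ≤ T) :
    ((gB fL T - gB fL S : ℕ) : ℝ) ≤ (T:ℝ) * fA (S / T) + 1 := by
  have hm := h.dig_gB.mono hT
  rw [Nat.cast_sub hm]
  unfold gB
  have h0 := h.cz_nonneg
  have h1 := Nat.sub_one_lt_floor (cz fL * S)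
  have h2 : ((⌊cz fL * T⌋₊ : ℕ) : ℝ) ≤ cz fL * T := Nat.floor_le (by positivity)
  have h3 := h.cz_le_A (div_mem hS hT)
  have hTp : (0:ℝ) < T := by exact_mod_cast (lt_of_lt_of_le hS hT)
  have h4 : (T:ℝ) * ((1 - S / T) * cz fL) ≤ T * fA (S / T) := mul_le_mul_of_nonneg_left h3 hTp.le
  have h5 : (T:ℝ) * ((1 - S / T) * cz fL) = cz fL * T - cz fL * S := by field_simp
  linarith

theorem Adm.Gf_lower (b : Bool) {a S T : ℕ} (ha : 1 ≤ a) (hS : a ≤ S) (hT : S ≤ T) :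
    (T:ℝ) * fL (S / T) - 1 ≤ ((Gf (psi fL fA b) a T - Gf (psi fL fA b) a S : ℕ) : ℝ) := by
  have hm := (h.dig_Gf b ha).mono hT
  rw [Nat.cast_sub hm, h.Gf_eq b ha hS, h.Gf_eq b ha (hS.trans hT)]
  have h1 := Nat.sub_one_lt_floor ((T:ℝ) * psi fL fA b (a / T))
  have h2 := Nat.floor_le (h.H_nonneg b ha hS)
  have h3 := (h.incr b ha hS hT).1
  linarith

theorem Adm.Gf_upper (b : Bool) {a S T : ℕ} (ha : 1 ≤ a) (hS : 1 ≤ S) (hT : S ≤ T) :
    ((Gf (psi fL fA b) a T - Gf (psi fL fA b) a S : ℕ) : ℝ) ≤ (T:ℝ) * fA (S / T) + 1 := by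
  have hm := (h.dig_Gf b ha).mono hT
  have hTp : (0:ℝ) < T := by exact_mod_cast (lt_of_lt_of_le hS hT)
  have hA0 : 0 ≤ (T:ℝ) * fA (S / T) := by
    have h1 := div_mem hS hT
    have := h.L_le_A h1
    have := h.L0 _ h1
    have : 0 ≤ fA (S / T) := by linarith
    positivity
  rcases le_or_gt a S with haS | haS
  · rw [Nat.cast_sub hm, h.Gf_eq b ha haS, h.Gf_eq b ha (haS.trans hT)]
    have h1 := Nat.sub_one_lt_floor ((S:ℝ) * psi fL fA b (a / S))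
    have h2 := Nat.floor_le (h.H_nonneg b ha (haS.trans hT))
    have h3 := (h.incr b ha haS hT).2
    linarith
  · rcases le_or_gt a T with haT | haT
    · have e : Gf (psi fL fA b) a S = 0 := by unfold Gf; rw [if_pos haS.le]
      rw [e, Nat.sub_zero, h.Gf_eq b ha haT]
      have h2 := Nat.floor_le (h.H_nonneg b ha haT)
      have h3 := h.psi_le b (div_mem ha haT)
      have h4 := h.anti _ (div_mem hS hT) _ (div_mem ha haT) (by gcongr)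
      have h5 : (T:ℝ) * psi fL fA b (a / T) ≤ T * fA (S / T) := mul_le_mul_of_nonneg_left (h3.trans h4) hTp.le
      linarith
    · have e : Gf (psi fL fA b) a T = 0 := by unfold Gf; rw [if_pos haT.le]
      rw [e, Nat.zero_sub]
      push_cast
      linarith

end

/-! ### The one dimensional set -/

def UU (fL fA : ℝ → ℝ) (a : ℕ) (b : Bool) : Set ℝ :=
  DS (gB fL) ∪ {y | ∃ z ∈ DS (Gf (psi fL fA b) a), y = z - 2 * (1 / 2) ^ a}

def F1 (fL fA : ℝ → ℝ) : Set ℝ :=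
  {x | ∃ a : ℕ, ∃ b : Bool, 1 ≤ a ∧ x - 8 * (2 * a + b.toNat : ℕ) ∈ UU fL fA a b}

section
variable {fL fA : ℝ → ℝ} (h : Adm fL fA)

theorem Gf_low (ψ : ℝ → ℝ) (a : ℕ) : ∀ n < a, Gf ψ a (n + 1) ≤ Gf ψ a n := by
  intro n hn
  unfold Gf
  rw [if_pos (by omega), if_pos (by omega)]

theorem UU_bounds {a : ℕ} {b : Bool} (ha : 1 ≤ a) {u : ℝ} (hu : u ∈ UU fL fA a b) : -1 ≤ u ∧ u < 1 := by
  have hp : (1 / 2 : ℝ) ^ a ≤ 1 / 2 := by
    calc (1 / 2 : ℝ) ^ a ≤ (1 / 2) ^ 1 := pow_le_pow_of_le_one (by norm_num) (by norm_num) ha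
      _ = _ := by norm_num
  rcases hu with hu | ⟨z, hz, rfl⟩
  · have h1 := DS_nonneg hu
    have h2 := DS_lt hu 0 (by simp)
    constructor
    · linarith
    · simpa using h2
  · have h1 := DS_nonneg hz
    have h2 := DS_lt hz a (Gf_low _ a)
    constructor <;> linarith

theorem index_eq {a a' : ℕ} {b b' : Bool} (ha : 1 ≤ a) (ha' : 1 ≤ a') {x y : ℝ}
    (hx : x - 8 * (2 * a + b.toNat : ℕ) ∈ UU fL fA a b) (hy : y - 8 * (2 * a' + b'.toNat : ℕ) ∈ UU fL fA a' b')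
    (hxy : |y - x| ≤ 1) : a' = a ∧ b' = b := by
  have h1 := UU_bounds ha hx
  have h2 := UU_bounds ha' hy
  rw [abs_le] at hxy
  have h3 : (8:ℝ) * (2 * a + b.toNat : ℕ) < 8 * (2 * a' + b'.toNat : ℕ) + 4 := by linarith
  have h4 : (8:ℝ) * (2 * a' + b'.toNat : ℕ) < 8 * (2 * a + b.toNat : ℕ) + 4 := by linarith
  have h5 : 8 * (2 * a + b.toNat) < 8 * (2 * a' + b'.toNat) + 4 := by exact_mod_cast h3
  have h6 : 8 * (2 * a' + b'.toNat) < 8 * (2 * a + b.toNat) + 4 := by exact_mod_cast h4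
  cases b <;> cases b' <;> simp at h5 h6 ⊢ <;> omega

include h

omit h in
theorem rpow_two_nat_le {n : ℕ} {e : ℝ} (he : (n:ℝ) ≤ e) : ((2 ^ n : ℕ) : ℝ) ≤ (2:ℝ) ^ e := by
  push_cast
  rw [← Real.rpow_natCast]
  exact Real.rpow_le_rpow_of_exponent_le (by norm_num) he

omit h in
theorem rpow_le_two_nat {n : ℕ} {e : ℝ} (he : e ≤ (n:ℝ)) : (2:ℝ) ^ e ≤ ((2 ^ n : ℕ) : ℝ) := by
  push_cast
  rw [← Real.rpow_natCast]
  exact Real.rpow_le_rpow_of_exponent_le (by norm_num) he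

theorem Adm.F1_upper {x : ℝ} (hx : x ∈ F1 fL fA) {S T : ℕ} (hS : 1 ≤ S) (hT : S ≤ T) :
    ∃ C : Finset ℝ, (C.card : ℝ) ≤ 12 * (2:ℝ) ^ ((T:ℝ) * fA (S / T)) ∧
      ∀ y ∈ F1 fL fA, |y - x| ≤ (1 / 2 : ℝ) ^ S → ∃ c ∈ C, |y - c| ≤ (1 / 2 : ℝ) ^ T := by
  classical
  obtain ⟨a, b, ha, hx⟩ := hx
  obtain ⟨j, hj⟩ : ∃ j : ℝ, j = 8 * (2 * a + b.toNat : ℕ) := ⟨_, rfl⟩
  rw [← hj] at hx
  obtain ⟨C1, hC1, hC1'⟩ := DS_upper h.dig_gB (x - j) S T hT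
  obtain ⟨C2, hC2, hC2'⟩ := DS_upper (h.dig_Gf b ha) (x - j + 2 * (1 / 2) ^ a) S T hT
  refine ⟨C1.image (fun c => c + j) ∪ C2.image (fun c => c + j - 2 * (1 / 2) ^ a), ?_, ?_⟩
  · have e1 : ((2 ^ (gB fL T - gB fL S) : ℕ) : ℝ) ≤ 2 ^ ((T:ℝ) * fA (S / T) + 1) :=
      rpow_two_nat_le (h.gB_upper hS hT)
    have e2 : ((2 ^ (Gf (psi fL fA b) a T - Gf (psi fL fA b) a S) : ℕ) : ℝ) ≤ 2 ^ ((T:ℝ) * fA (S / T) + 1) :=
      rpow_two_nat_le (h.Gf_upper b ha hS hT)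
    rw [Real.rpow_add (by norm_num), Real.rpow_one] at e1 e2
    have e3 : ((C1.image (fun c => c + j) ∪ C2.image (fun c => c + j - 2 * (1 / 2) ^ a)).card : ℝ) ≤
        ((3 * 2 ^ (gB fL T - gB fL S) + 3 * 2 ^ (Gf (psi fL fA b) a T - Gf (psi fL fA b) a S) : ℕ) : ℝ) := by
      exact_mod_cast (Finset.card_union_le _ _).trans (Nat.add_le_add (Finset.card_image_le.trans hC1)
        (Finset.card_image_le.trans hC2))
    refine e3.trans ?_
    push_cast at e1 e2 ⊢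
    linarith
  · intro y hy hyx
    obtain ⟨a', b', ha', hy⟩ := hy
    have hone : (1 / 2 : ℝ) ^ S ≤ 1 := pow_le_one₀ (by norm_num) (by norm_num)
    obtain ⟨rfl, rfl⟩ := index_eq ha ha' (by rw [← hj]; exact hx) hy (hyx.trans hone)
    rw [← hj] at hy
    rcases hy with hy | ⟨z, hz, hz'⟩
    · obtain ⟨c, hc, hc'⟩ := hC1' _ hy (by rwa [sub_sub_sub_cancel_right])
      refine ⟨c + j, ?_, ?_⟩
      · rw [Finset.mem_union]; left; exact Finset.mem_image.2 ⟨c, hc, rfl⟩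
      · rwa [show y - (c + j) = y - j - c by ring]
    · have e : z = y - j + 2 * (1 / 2) ^ a' := by linarith
      obtain ⟨c, hc, hc'⟩ := hC2' z hz (by
        rw [e, show y - j + 2 * (1 / 2) ^ a' - (x - j + 2 * (1 / 2) ^ a') = y - x by ring]; exact hyx)
      refine ⟨c + j - 2 * (1 / 2) ^ a', ?_, ?_⟩
      · rw [Finset.mem_union]; right; exact Finset.mem_image.2 ⟨c, hc, rfl⟩
      · rw [e] at hc'
        rwa [show y - (c + j - 2 * (1 / 2) ^ a') = y - j + 2 * (1 / 2) ^ a' - c by ring]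

omit h in
/-- translate a separated family -/
theorem transl_sep {C : Finset ℝ} {T : ℕ} (s : ℝ)
    (hsep : ∀ p ∈ C, ∀ q ∈ C, p ≠ q → (1 / 2 : ℝ) ^ T ≤ |p - q|) :
    (C.image (fun c => c + s)).card = C.card ∧
    ∀ p ∈ C.image (fun c => c + s), ∀ q ∈ C.image (fun c => c + s), p ≠ q → (1 / 2 : ℝ) ^ T ≤ |p - q| := by
  classical
  constructor
  · exact Finset.card_image_of_injective _ (add_left_injective s)
  · intro p hp q hq hpq
    rw [Finset.mem_image] at hp hq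
    obtain ⟨p', hp', rfl⟩ := hp
    obtain ⟨q', hq', rfl⟩ := hq
    rw [add_sub_add_right_eq_sub]
    exact hsep p' hp' q' hq' (fun e => hpq (by rw [e]))

theorem Adm.F1_lower {x : ℝ} (hx : x ∈ F1 fL fA) {S T : ℕ} (hS : 1 ≤ S) (hT : S + 1 ≤ T) :
    ∃ C : Finset ℝ, (1 / 2) * (2:ℝ) ^ ((T:ℝ) * fL ((S + 1 : ℕ) / T)) ≤ (C.card : ℝ) ∧
      (∀ p ∈ C, p ∈ F1 fL fA ∧ |p - x| ≤ (1 / 2 : ℝ) ^ S) ∧
      ∀ p ∈ C, ∀ q ∈ C, p ≠ q → (1 / 2 : ℝ) ^ T ≤ |p - q| := by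
  classical
  obtain ⟨a, b, ha, hx⟩ := hx
  obtain ⟨j, hj⟩ : ∃ j : ℝ, j = 8 * (2 * a + b.toNat : ℕ) := ⟨_, rfl⟩
  rw [← hj] at hx
  have hST : S ≤ T := by omega
  have hTp : (0:ℝ) < T := by exact_mod_cast (by omega : 0 < T)
  have hanti : (T:ℝ) * fL ((S + 1 : ℕ) / T) ≤ T * fL (S / T) := by
    apply mul_le_mul_of_nonneg_left _ hTp.le
    apply h.L_anti (div_mem hS hST) (div_mem (by omega) hT)
    push_cast
    gcongr
    linarith
  have hhalf : ∀ n : ℕ, (T:ℝ) * fL ((S + 1 : ℕ) / T) - 1 ≤ n →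
      (1 / 2) * (2:ℝ) ^ ((T:ℝ) * fL ((S + 1 : ℕ) / T)) ≤ ((2 ^ n : ℕ) : ℝ) := by
    intro n hn
    have := rpow_le_two_nat hn
    rw [Real.rpow_sub (by norm_num), Real.rpow_one] at this
    linarith
  rcases hx with hx | ⟨z, hz, hz'⟩
  · obtain ⟨C, hc, hm, hs⟩ := DS_lower h.dig_gB hx S T hST
    obtain ⟨t1, t2⟩ := transl_sep j hs
    refine ⟨C.image (fun c => c + j), ?_, ?_, t2⟩
    · rw [t1, hc]
      apply hhalf
      have := h.gB_lower hS hST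
      linarith
    · intro p hp
      rw [Finset.mem_image] at hp
      obtain ⟨p', hp', rfl⟩ := hp
      refine ⟨⟨a, b, ha, ?_⟩, ?_⟩
      · left
        rw [← hj, add_sub_cancel_right]
        exact (hm p' hp').1
      · rw [show p' + j - x = p' - (x - j) by ring]
        exact (hm p' hp').2
  · rcases le_or_gt a S with haS | haS
    · obtain ⟨C, hc, hm, hs⟩ := DS_lower (h.dig_Gf b ha) hz S T hST
      obtain ⟨t1, t2⟩ := transl_sep (j - 2 * (1 / 2) ^ a) hs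
      refine ⟨C.image (fun c => c + (j - 2 * (1 / 2) ^ a)), ?_, ?_, t2⟩
      · rw [t1, hc]
        apply hhalf
        have := h.Gf_lower b ha haS hST
        linarith
      · intro p hp
        rw [Finset.mem_image] at hp
        obtain ⟨p', hp', rfl⟩ := hp
        refine ⟨⟨a, b, ha, ?_⟩, ?_⟩
        · right
          refine ⟨p', (hm p' hp').1, ?_⟩
          rw [← hj]; ring
        · rw [show p' + (j - 2 * (1 / 2) ^ a) - x = p' - z by linarith]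
          exact (hm p' hp').2
    · rcases eq_or_lt_of_le (Nat.succ_le_of_lt haS) with haS' | haS'
      · -- S + 1 = a
        have e1 : a = S + 1 := haS'.symm
        obtain ⟨C, hc, hm, hs⟩ := DS_lower (h.dig_Gf b ha) hz a T (by omega)
        obtain ⟨t1, t2⟩ := transl_sep (j - 2 * (1 / 2) ^ a) hs
        refine ⟨C.image (fun c => c + (j - 2 * (1 / 2) ^ a)), ?_, ?_, t2⟩
        · rw [t1, hc]
          apply hhalf
          have := h.Gf_lower b ha le_rfl (show a ≤ T by omega)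
          rw [← e1]
          exact this
        · intro p hp
          rw [Finset.mem_image] at hp
          obtain ⟨p', hp', rfl⟩ := hp
          refine ⟨⟨a, b, ha, ?_⟩, ?_⟩
          · right
            refine ⟨p', (hm p' hp').1, ?_⟩
            rw [← hj]; ring
          · rw [show p' + (j - 2 * (1 / 2) ^ a) - x = p' - z by linarith]
            refine (hm p' hp').2.trans ?_
            exact pow_le_pow_of_le_one (by norm_num) (by norm_num) (by omega)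
      · obtain ⟨C, hc, hm, hs⟩ := DS_lower h.dig_gB (zero_mem_DS _) (S + 1) T hT
        obtain ⟨t1, t2⟩ := transl_sep j hs
        refine ⟨C.image (fun c => c + j), ?_, ?_, t2⟩
        · rw [t1, hc]
          apply hhalf
          exact h.gB_lower (by omega) hT
        · intro p hp
          rw [Finset.mem_image] at hp
          obtain ⟨p', hp', rfl⟩ := hp
          refine ⟨⟨a, b, ha, ?_⟩, ?_⟩
          · left
            rw [← hj, add_sub_cancel_right]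
            exact (hm p' hp').1
          · have h1 := (hm p' hp').2
            rw [sub_zero] at h1
            have hz0 := DS_nonneg hz
            have hz1 := DS_lt hz a (Gf_low _ a)
            have h2 : (1 / 2 : ℝ) ^ a ≤ (1 / 2) ^ (S + 2) :=
              pow_le_pow_of_le_one (by norm_num) (by norm_num) (by omega)
            rw [pow_succ] at h1
            rw [pow_add] at h2
            norm_num at h2 h1
            rw [show p' + j - x = p' - (z - 2 * (1 / 2) ^ a) by linarith]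
            rw [abs_le] at h1 ⊢
            have h3 : (0:ℝ) < (1 / 2) ^ a := by positivity
            norm_num at h3 hz1 ⊢
            constructor <;> linarith

theorem Adm.poor {a : ℕ} (ha : 1 ≤ a) : ∃ x ∈ F1 fL fA, ∀ T : ℕ, a ≤ T →
    ∃ C : Finset ℝ, (C.card : ℝ) ≤ 3 * (2:ℝ) ^ ((T:ℝ) * fL (a / T)) ∧
      ∀ y ∈ F1 fL fA, |y - x| ≤ (1 / 2 : ℝ) ^ a → ∃ c ∈ C, |y - c| ≤ (1 / 2 : ℝ) ^ T := by
  classical
  obtain ⟨j, hj⟩ : ∃ j : ℝ, j = 8 * (2 * a + false.toNat : ℕ) := ⟨_, rfl⟩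
  have hx : j - 2 * (1 / 2) ^ a - 8 * (2 * a + false.toNat : ℕ) ∈ UU fL fA a false := by
    right
    refine ⟨0, zero_mem_DS _, ?_⟩
    rw [← hj]; ring
  refine ⟨j - 2 * (1 / 2) ^ a, ⟨a, false, ha, hx⟩, fun T hT => ?_⟩
  obtain ⟨C2, hC2, hC2'⟩ := DS_upper (h.dig_Gf false ha) 0 a T hT
  refine ⟨C2.image (fun c => c + j - 2 * (1 / 2) ^ a), ?_, ?_⟩
  · have e0 : Gf (psi fL fA false) a a = 0 := by unfold Gf; rw [if_pos le_rfl]
    rw [e0, Nat.sub_zero] at hC2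
    have e2 : ((2 ^ (Gf (psi fL fA false) a T) : ℕ) : ℝ) ≤ 2 ^ ((T:ℝ) * fL (a / T)) := by
      apply rpow_two_nat_le
      rw [h.Gf_eq false ha hT]
      refine (Nat.floor_le (h.H_nonneg false ha hT)).trans ?_
      simp [psi]
    have e3 : ((C2.image (fun c => c + j - 2 * (1 / 2) ^ a)).card : ℝ) ≤
        ((3 * 2 ^ (Gf (psi fL fA false) a T) : ℕ) : ℝ) := by
      exact_mod_cast Finset.card_image_le.trans hC2
    refine e3.trans ?_
    push_cast at e2 ⊢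
    linarith
  · intro y hy hyx
    obtain ⟨a', b', ha', hy⟩ := hy
    have hone : (1 / 2 : ℝ) ^ a ≤ 1 := pow_le_one₀ (by norm_num) (by norm_num)
    obtain ⟨rfl, rfl⟩ := index_eq ha ha' hx hy (hyx.trans hone)
    rw [← hj] at hy
    have hpos : (0:ℝ) < (1 / 2) ^ a' := by positivity
    rcases hy with hy | ⟨z, hz, hz'⟩
    · exfalso
      have h1 := DS_nonneg hy
      rw [abs_le] at hyx
      linarith [hyx.2]
    · have e : z = y - j + 2 * (1 / 2) ^ a' := by linarith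
      obtain ⟨c, hc, hc'⟩ := hC2' z hz (by
        rw [e, show y - j + 2 * (1 / 2) ^ a' - 0 = y - (j - 2 * (1 / 2) ^ a') by ring]; exact hyx)
      refine ⟨c + j - 2 * (1 / 2) ^ a', Finset.mem_image.2 ⟨c, hc, rfl⟩, ?_⟩
      rw [e] at hc'
      rwa [show y - (c + j - 2 * (1 / 2) ^ a') = y - j + 2 * (1 / 2) ^ a' - c by ring]

omit h in
theorem dig_add {g : ℕ → ℕ} (hg : Dig g) (a m : ℕ) : g (a + m) ≤ g a + m := by
  induction m with
  | zero => simp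
  | succ n ih => have := (hg (a + n)).2; rw [← add_assoc]; omega

theorem Adm.rich {a : ℕ} (ha : 1 ≤ a) (m : ℕ) : ∃ x ∈ F1 fL fA, ∀ T : ℕ, a + m ≤ T →
    ∃ C : Finset ℝ, (1 / 2) ^ (m + 1) * (2:ℝ) ^ ((T:ℝ) * fA (a / T)) ≤ (C.card : ℝ) ∧
      (∀ p ∈ C, p ∈ F1 fL fA ∧ |p - x| ≤ (1 / 2 : ℝ) ^ (a + m)) ∧
      ∀ p ∈ C, ∀ q ∈ C, p ≠ q → (1 / 2 : ℝ) ^ T ≤ |p - q| := by
  classical
  obtain ⟨j, hj⟩ : ∃ j : ℝ, j = 8 * (2 * a + true.toNat : ℕ) := ⟨_, rfl⟩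
  have hx : j - 2 * (1 / 2) ^ a - 8 * (2 * a + true.toNat : ℕ) ∈ UU fL fA a true := by
    right
    refine ⟨0, zero_mem_DS _, ?_⟩
    rw [← hj]; ring
  refine ⟨j - 2 * (1 / 2) ^ a, ⟨a, true, ha, hx⟩, fun T hT => ?_⟩
  obtain ⟨C, hc, hm, hs⟩ := DS_lower (h.dig_Gf true ha) (zero_mem_DS _) (a + m) T hT
  obtain ⟨t1, t2⟩ := transl_sep (j - 2 * (1 / 2) ^ a) hs
  refine ⟨C.image (fun c => c + (j - 2 * (1 / 2) ^ a)), ?_, ?_, t2⟩
  · rw [t1, hc]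
    have e0 : Gf (psi fL fA true) a a = 0 := by unfold Gf; rw [if_pos le_rfl]
    have e1 := dig_add (h.dig_Gf true ha) a m
    rw [e0, zero_add] at e1
    have e2 : (T:ℝ) * fA (a / T) - 1 ≤ (Gf (psi fL fA true) a T : ℝ) := by
      rw [h.Gf_eq true ha (by omega)]
      have := Nat.sub_one_lt_floor ((T:ℝ) * psi fL fA true (a / T))
      simp only [psi] at this ⊢
      simpa using this.le
    have e3 : (T:ℝ) * fA (a / T) - (m + 1 : ℕ) ≤
        ((Gf (psi fL fA true) a T - Gf (psi fL fA true) a (a + m) : ℕ) : ℝ) := by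
      rw [Nat.cast_sub ((h.dig_Gf true ha).mono hT)]
      have : (Gf (psi fL fA true) a (a + m) : ℝ) ≤ m := by exact_mod_cast e1
      push_cast
      linarith
    have e4 := rpow_le_two_nat e3
    rw [Real.rpow_sub (by norm_num), Real.rpow_natCast] at e4
    calc (1 / 2 : ℝ) ^ (m + 1) * (2:ℝ) ^ ((T:ℝ) * fA (a / T)) = (2:ℝ) ^ ((T:ℝ) * fA (a / T)) / 2 ^ (m + 1) := by
          rw [one_div, inv_pow]; field_simp
      _ ≤ _ := e4
  · intro p hp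
    rw [Finset.mem_image] at hp
    obtain ⟨p', hp', rfl⟩ := hp
    refine ⟨⟨a, true, ha, ?_⟩, ?_⟩
    · right
      refine ⟨p', (hm p' hp').1, ?_⟩
      rw [← hj]; ring
    · rw [show p' + (j - 2 * (1 / 2) ^ a) - (j - 2 * (1 / 2) ^ a) = p' - 0 by ring]
      exact (hm p' hp').2

end

/-! ### Products and covering numbers -/

def FF (d : ℕ) (fL fA : ℝ → ℝ) : Set (Rd d) := {x | ∀ i, x i ∈ F1 fL fA}

theorem coverNum_le {d : ℕ} {r : ℝ} {E : Set (Rd d)} (t : Finset (Rd d))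
    (ht : E ⊆ ⋃ c ∈ t, Metric.closedBall c r) : coverNum r E ≤ t.card :=
  Nat.sInf_le ⟨t, rfl, ht⟩

theorem exists_cover {d : ℕ} (x : Rd d) (R : ℝ) {r : ℝ} (hr : 0 < r) (F : Set (Rd d)) :
    ∃ t : Finset (Rd d), Metric.closedBall x R ∩ F ⊆ ⋃ c ∈ t, Metric.closedBall c r := by
  obtain ⟨t, -, hfin, hcov⟩ := (isCompact_closedBall x R).finite_cover_balls hr
  refine ⟨hfin.toFinset, ?_⟩
  intro y hy
  have := hcov hy.1
  rw [mem_iUnion₂] at this ⊢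
  obtain ⟨c, hc, hyc⟩ := this
  exact ⟨c, by simpa using hc, Metric.ball_subset_closedBall hyc⟩

theorem le_coverNum {d : ℕ} (x : Rd d) (R : ℝ) {r : ℝ} (hr : 0 < r) (F : Set (Rd d)) (n : ℕ)
    (hn : ∀ t : Finset (Rd d), Metric.closedBall x R ∩ F ⊆ ⋃ c ∈ t, Metric.closedBall c r → n ≤ t.card) :
    n ≤ coverNum r (Metric.closedBall x R ∩ F) := by
  obtain ⟨t, ht⟩ := exists_cover x R hr F
  have hne : {n : ℕ | ∃ t : Finset (Rd d), t.card = n ∧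
      Metric.closedBall x R ∩ F ⊆ ⋃ c ∈ t, Metric.closedBall c r}.Nonempty := ⟨t.card, t, rfl, ht⟩
  apply le_csInf hne
  rintro _ ⟨t, rfl, ht⟩
  exact hn t ht

theorem one_le_coverNum {d : ℕ} {x : Rd d} {R r : ℝ} (hr : 0 < r) (hR : 0 ≤ R) {F : Set (Rd d)} (hx : x ∈ F) :
    1 ≤ coverNum r (Metric.closedBall x R ∩ F) := by
  apply le_coverNum x R hr
  intro t ht
  have := ht ⟨Metric.mem_closedBall_self hR, hx⟩
  rw [mem_iUnion₂] at this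
  obtain ⟨c, hc, -⟩ := this
  exact Finset.card_pos.2 ⟨c, hc⟩

theorem coverNum_bdd (d : ℕ) {r₀ : ℝ} (hr₀ : 0 < r₀) : ∃ K : ℕ, ∀ (F : Set (Rd d)) (x : Rd d) (R r : ℝ),
    R ≤ 1 → r₀ ≤ r → coverNum r (Metric.closedBall x R ∩ F) ≤ K := by
  classical
  obtain ⟨t, ht⟩ := exists_cover (0 : Rd d) 1 hr₀ univ
  refine ⟨t.card, fun F x R r hR hr => ?_⟩
  refine (coverNum_le (t.image (fun c => c + x)) ?_).trans Finset.card_image_le
  intro y hy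
  have h1 : y - x ∈ Metric.closedBall (0 : Rd d) 1 ∩ univ := by
    refine ⟨?_, mem_univ _⟩
    have := hy.1
    rw [Metric.mem_closedBall, dist_eq_norm] at this ⊢
    rw [sub_zero]; linarith
  have h2 := ht h1
  rw [mem_iUnion₂] at h2 ⊢
  obtain ⟨c, hc, hyc⟩ := h2
  refine ⟨c + x, Finset.mem_image.2 ⟨c, hc, rfl⟩, ?_⟩
  rw [Metric.mem_closedBall, dist_eq_norm] at hyc ⊢
  rw [show y - (c + x) = y - x - c by abel]
  linarith

theorem norm_le_of_coord {d : ℕ} (v : Rd d) {e : ℝ} (he : 0 ≤ e) (h : ∀ i, |v i| ≤ e) : ‖v‖ ≤ 2 ^ d * e := by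
  rw [EuclideanSpace.norm_eq]
  apply Real.sqrt_le_iff.2
  refine ⟨by positivity, ?_⟩
  calc ∑ i, ‖v i‖ ^ 2 ≤ ∑ _i : Fin d, e ^ 2 := by
        apply Finset.sum_le_sum
        intro i _
        rw [Real.norm_eq_abs]
        exact pow_le_pow_left₀ (abs_nonneg _) (h i) 2
    _ = d * e ^ 2 := by simp
    _ ≤ (2 ^ d * e) ^ 2 := by
        rw [mul_pow]
        apply mul_le_mul_of_nonneg_right _ (sq_nonneg e)
        have h1 : (d:ℝ) ≤ 2 ^ d := by exact_mod_cast (Nat.lt_two_pow_self (n := d)).le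
        have h2 : (1:ℝ) ≤ 2 ^ d := one_le_pow₀ (by norm_num)
        nlinarith

theorem abs_coord_le {d : ℕ} (v : Rd d) (i : Fin d) : |v i| ≤ ‖v‖ := by
  have := PiLp.norm_apply_le v i
  rwa [Real.norm_eq_abs] at this

theorem cover_upper {d : ℕ} {fL fA : ℝ → ℝ} {x : Rd d} {K R r : ℝ} {T : ℕ} (hr : 2 ^ d * (1 / 2 : ℝ) ^ T ≤ r)
    (hC : ∀ i, ∃ C : Finset ℝ, (C.card : ℝ) ≤ K ∧ ∀ y ∈ F1 fL fA, |y - x i| ≤ R → ∃ c ∈ C, |y - c| ≤ (1 / 2 : ℝ) ^ T) :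
    (coverNum r (Metric.closedBall x R ∩ FF d fL fA) : ℝ) ≤ K ^ d := by
  classical
  choose C hC1 hC2 using hC
  have hcov : Metric.closedBall x R ∩ FF d fL fA ⊆
      ⋃ c ∈ (Fintype.piFinset C).image (fun c => (WithLp.toLp 2 c : Rd d)), Metric.closedBall c r := by
    intro y hy
    have hy1 : ∀ i, |y i - x i| ≤ R := by
      intro i
      have := abs_coord_le (y - x) i
      have h2 := hy.1
      rw [Metric.mem_closedBall, dist_eq_norm] at h2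
      exact this.trans h2
    choose c hc hc' using fun i => hC2 i (y i) (hy.2 i) (hy1 i)
    rw [mem_iUnion₂]
    refine ⟨WithLp.toLp 2 c, Finset.mem_image.2 ⟨c, Fintype.mem_piFinset.2 hc, rfl⟩, ?_⟩
    rw [Metric.mem_closedBall, dist_eq_norm]
    exact (norm_le_of_coord _ (by positivity) hc').trans hr
  have h1 := coverNum_le _ hcov
  have h2 : ((Fintype.piFinset C).image (fun c => (WithLp.toLp 2 c : Rd d))).card ≤ ∏ i, (C i).card := by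
    refine Finset.card_image_le.trans ?_
    rw [Fintype.card_piFinset]
  calc (coverNum r (Metric.closedBall x R ∩ FF d fL fA) : ℝ) ≤ ((∏ i, (C i).card : ℕ) : ℝ) := by
        exact_mod_cast h1.trans h2
    _ = ∏ i, ((C i).card : ℝ) := by push_cast; rfl
    _ ≤ ∏ _i : Fin d, K := Finset.prod_le_prod (fun _ _ => by positivity) (fun i _ => hC1 i)
    _ = K ^ d := by simp

theorem cover_lower {d : ℕ} {fL fA : ℝ → ℝ} {x : Rd d} {K R r : ℝ} {S T : ℕ} (hK : 0 ≤ K) (hr0 : 0 < r)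
    (hr : 2 * r < (1 / 2 : ℝ) ^ T) (hR : 2 ^ d * (1 / 2 : ℝ) ^ S ≤ R)
    (hC : ∀ i, ∃ C : Finset ℝ, K ≤ (C.card : ℝ) ∧ (∀ p ∈ C, p ∈ F1 fL fA ∧ |p - x i| ≤ (1 / 2 : ℝ) ^ S) ∧
      ∀ p ∈ C, ∀ q ∈ C, p ≠ q → (1 / 2 : ℝ) ^ T ≤ |p - q|) :
    K ^ d ≤ (coverNum r (Metric.closedBall x R ∩ FF d fL fA) : ℝ) := by
  classical
  choose C hC1 hC2 hC3 using hC
  have h1 : ∏ i, (C i).card ≤ coverNum r (Metric.closedBall x R ∩ FF d fL fA) := by
    apply le_coverNum x R hr0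
    intro t ht
    have hex : ∀ p ∈ Fintype.piFinset C, ∃ c ∈ t, (WithLp.toLp 2 p : Rd d) ∈ Metric.closedBall c r := by
      intro p hp
      rw [Fintype.mem_piFinset] at hp
      have hmem : (WithLp.toLp 2 p : Rd d) ∈ Metric.closedBall x R ∩ FF d fL fA := by
        refine ⟨?_, fun i => (hC2 i (p i) (hp i)).1⟩
        rw [Metric.mem_closedBall, dist_eq_norm]
        exact (norm_le_of_coord _ (by positivity) (fun i => (hC2 i (p i) (hp i)).2)).trans hR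
      have := ht hmem
      rw [mem_iUnion₂] at this
      obtain ⟨c, hc, h⟩ := this
      exact ⟨c, hc, h⟩
    choose! f hf hf' using hex
    rw [← Fintype.card_piFinset]
    apply Finset.card_le_card_of_injOn f hf
    intro p hp q hq hpq
    by_contra hne
    obtain ⟨i, hi⟩ := Function.ne_iff.1 hne
    have hp' := Fintype.mem_piFinset.1 (Finset.mem_coe.1 hp)
    have hq' := Fintype.mem_piFinset.1 (Finset.mem_coe.1 hq)
    have h2 := hC3 i _ (hp' i) _ (hq' i) hi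
    have h3 := hf' p hp
    have h4 := hf' q hq
    rw [hpq] at h3
    rw [Metric.mem_closedBall] at h3 h4
    have h5 : dist (WithLp.toLp 2 p : Rd d) (WithLp.toLp 2 q) ≤ 2 * r := by
      have := dist_triangle_right (WithLp.toLp 2 p : Rd d) (WithLp.toLp 2 q) (f q)
      linarith
    have h6 := abs_coord_le ((WithLp.toLp 2 p : Rd d) - WithLp.toLp 2 q) i
    rw [dist_eq_norm] at h5
    have h7 : |p i - q i| ≤ ‖(WithLp.toLp 2 p : Rd d) - WithLp.toLp 2 q‖ := h6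
    linarith
  calc K ^ d = ∏ _i : Fin d, K := by simp
    _ ≤ ∏ i, ((C i).card : ℝ) := Finset.prod_le_prod (fun _ _ => hK) (fun i _ => hC1 i)
    _ = ((∏ i, (C i).card : ℕ) : ℝ) := by push_cast; rfl
    _ ≤ _ := by exact_mod_cast h1

/-! ### Real scales -/

theorem contAt_of_lip {f : ℝ → ℝ} {θ K : ℝ} (hθ : θ ∈ Ioo (0:ℝ) 1)
    (hf : ∀ s ∈ Ioc (0:ℝ) 1, |f s - f θ| ≤ K * |s - θ|) : ContinuousAt f θ := by
  rw [ContinuousAt, tendsto_iff_dist_tendsto_zero]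
  have h1 : Tendsto (fun s => K * |s - θ|) (𝓝 θ) (𝓝 0) := by
    have : Continuous (fun s => K * |s - θ|) := by fun_prop
    have := this.tendsto θ
    simpa using this
  refine squeeze_zero' (Eventually.of_forall fun _ => dist_nonneg) ?_ h1
  filter_upwards [Ioo_mem_nhds hθ.1 hθ.2] with s hs
  rw [Real.dist_eq]
  exact hf s ⟨hs.1, hs.2.le⟩

theorem Adm.contA {fL fA : ℝ → ℝ} (h : Adm fL fA) {θ : ℝ} (hθ : θ ∈ Ioo (0:ℝ) 1) : ContinuousAt fA θ :=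
  contAt_of_lip (K := 1) hθ fun s hs => by rw [one_mul]; exact h.lip s hs θ ⟨hθ.1, hθ.2.le⟩

theorem Adm.L_diff {fL fA : ℝ → ℝ} (h : Adm fL fA) {s t : ℝ} (hs : s ∈ Ioc (0:ℝ) 1) (ht : t ∈ Ioc (0:ℝ) 1)
    (hst : s ≤ t) : fL s - fL t ≤ 1 - s / t := by
  have hl : s / t ∈ Ioc (0:ℝ) 1 := ⟨div_pos hs.1 ht.1, (div_le_one ht.1).2 hst⟩
  have h1 := (h.J1 t ht (s / t) hl).2
  rw [mul_div_cancel₀ _ ht.1.ne'] at h1
  have h2 := h.A_le hl
  have h3 := h.L0 t ht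
  have h4 := hl.2
  nlinarith

theorem Adm.contL {fL fA : ℝ → ℝ} (h : Adm fL fA) {θ : ℝ} (hθ : θ ∈ Ioo (0:ℝ) 1) : ContinuousAt fL θ := by
  apply contAt_of_lip (K := 1 / θ) hθ
  intro s hs
  have hθ' : θ ∈ Ioc (0:ℝ) 1 := ⟨hθ.1, hθ.2.le⟩
  rcases le_total s θ with hle | hle
  · have h1 := h.L_anti hs hθ' hle
    have h2 := h.L_diff hs hθ' hle
    rw [abs_of_nonneg (by linarith), abs_of_nonpos (by linarith)]
    have : 1 / θ * -(s - θ) = 1 - s / θ := by field_simp [hθ.1.ne']; ring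
    rw [this]; exact h2
  · have h1 := h.L_anti hθ' hs hle
    have h2 := h.L_diff hθ' hs hle
    rw [abs_of_nonpos (by linarith), abs_of_nonneg (by linarith)]
    have h3 : 1 - θ / s = (s - θ) / s := by field_simp [hs.1.ne']
    have h4 : (s - θ) / s ≤ (s - θ) / θ := by
      apply div_le_div_of_nonneg_left (by linarith) hθ.1 hle
    calc -(fL s - fL θ) = fL θ - fL s := by ring
      _ ≤ (s - θ) / θ := by linarith
      _ = _ := by ring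

theorem lim_exp {ι : Type*} {l : Filter ι} {f : ℝ → ℝ} {θ : ℝ} (hc : ContinuousAt f θ) {u : ι → ℝ} {T S : ι → ℕ}
    (hu : Tendsto u l atTop) (hT : Tendsto (fun i => (T i : ℝ) / u i) l (𝓝 1))
    (hS : Tendsto (fun i => (S i : ℝ) / u i) l (𝓝 θ)) :
    Tendsto (fun i => (T i : ℝ) * f (S i / T i) / u i) l (𝓝 (f θ)) := by
  have h1 : Tendsto (fun i => (S i : ℝ) / T i) l (𝓝 θ) := by
    have := hS.div hT one_ne_zero
    rw [div_one] at this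
    refine this.congr' ?_
    filter_upwards [hu.eventually_gt_atTop 0] with i hi
    simp only [Pi.div_apply]
    field_simp
  have h2 := hT.mul (hc.tendsto.comp h1)
  rw [one_mul] at h2
  refine h2.congr fun i => ?_
  simp only [Function.comp]
  ring

theorem rpow_half (n : ℕ) : (1 / 2 : ℝ) ^ n = (2:ℝ) ^ (-(n:ℝ)) := by
  rw [Real.rpow_neg (by norm_num), Real.rpow_natCast, one_div, inv_pow]

theorem pow_le_r {u : ℝ} {n : ℕ} (h : u ≤ n) : (1 / 2 : ℝ) ^ n ≤ (2:ℝ) ^ (-u) := by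
  rw [rpow_half]
  exact Real.rpow_le_rpow_of_exponent_le (by norm_num) (by linarith)

theorem r_le_pow {u : ℝ} {n : ℕ} (h : (n:ℝ) ≤ u) : (2:ℝ) ^ (-u) ≤ (1 / 2 : ℝ) ^ n := by
  rw [rpow_half]
  exact Real.rpow_le_rpow_of_exponent_le (by norm_num) (by linarith)

theorem two_pow_mul_half (d n : ℕ) : (2:ℝ) ^ d * (1 / 2 : ℝ) ^ (n + d) = (1 / 2) ^ n := by
  rw [pow_add, mul_left_comm, ← mul_pow]; norm_num

section
variable {d : ℕ} {fL fA : ℝ → ℝ} (h : Adm fL fA)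
include h

/-- upper bound at all points -/
theorem Adm.all_upper {θ u : ℝ} (hθ : θ ∈ Ioo (0:ℝ) 1) (hu : 1 ≤ θ * u) {x : Rd d} (hx : x ∈ FF d fL fA) :
    (coverNum ((2:ℝ) ^ (-u)) (Metric.closedBall x ((2:ℝ) ^ (-(θ * u))) ∩ FF d fL fA) : ℝ) ≤
      (12 * (2:ℝ) ^ (((⌈u⌉₊ + d : ℕ) : ℝ) * fA ((⌊θ * u⌋₊ : ℕ) / (⌈u⌉₊ + d : ℕ)))) ^ d := by
  have hu0 : 0 < u := by
    by_contra hcon
    push Not at hcon
    nlinarith [hθ.1]
  have hS : 1 ≤ ⌊θ * u⌋₊ := Nat.one_le_floor_iff _ |>.2 hu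
  have hST : ⌊θ * u⌋₊ ≤ ⌈u⌉₊ + d := by
    have h1 : (⌊θ * u⌋₊ : ℝ) ≤ θ * u := Nat.floor_le (by linarith)
    have h2 : u ≤ (⌈u⌉₊ : ℝ) := Nat.le_ceil u
    have h3 : (⌊θ * u⌋₊ : ℝ) ≤ (⌈u⌉₊ : ℝ) := by nlinarith [hθ.2]
    have : ⌊θ * u⌋₊ ≤ ⌈u⌉₊ := by exact_mod_cast h3
    omega
  apply cover_upper (T := ⌈u⌉₊ + d)
  · rw [two_pow_mul_half]
    exact pow_le_r (Nat.le_ceil u)
  · intro i
    obtain ⟨C, hC1, hC2⟩ := h.F1_upper (hx i) hS hST
    refine ⟨C, hC1, fun y hy hyx => hC2 y hy (hyx.trans ?_)⟩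
    exact r_le_pow (Nat.floor_le (by linarith))

theorem Adm.all_lower {θ u : ℝ} (hθ : θ ∈ Ioo (0:ℝ) 1) (hu : 1 ≤ θ * u)
    (hu2 : ⌈θ * u⌉₊ + d + 1 ≤ ⌊u⌋₊ - 2) {x : Rd d} (hx : x ∈ FF d fL fA) :
    ((1 / 2) * (2:ℝ) ^ (((⌊u⌋₊ - 2 : ℕ) : ℝ) * fL ((⌈θ * u⌉₊ + d + 1 : ℕ) / (⌊u⌋₊ - 2 : ℕ)))) ^ d ≤
    (coverNum ((2:ℝ) ^ (-u)) (Metric.closedBall x ((2:ℝ) ^ (-(θ * u))) ∩ FF d fL fA) : ℝ) := by
  have hu0 : 0 < u := by
    by_contra hcon
    push Not at hcon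
    nlinarith [hθ.1]
  have hS : 1 ≤ ⌈θ * u⌉₊ + d := by
    have : 1 ≤ ⌈θ * u⌉₊ := Nat.one_le_ceil_iff.2 (by linarith)
    omega
  apply cover_lower (S := ⌈θ * u⌉₊ + d) (T := ⌊u⌋₊ - 2) (by positivity) (by positivity)
  · have h1 : (1 / 2 : ℝ) ^ (⌊u⌋₊ - 2) = 4 * (1 / 2) ^ ⌊u⌋₊ := by
      have : ⌊u⌋₊ = (⌊u⌋₊ - 2) + 2 := by omega
      conv_rhs => rw [this, pow_add]
      ring
    have h2 : (2:ℝ) ^ (-u) ≤ (1 / 2) ^ ⌊u⌋₊ := r_le_pow (Nat.floor_le hu0.le)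
    have h3 : (0:ℝ) < (2:ℝ) ^ (-u) := by positivity
    rw [h1]
    linarith
  · rw [two_pow_mul_half]
    exact pow_le_r (Nat.le_ceil _)
  · intro i
    exact h.F1_lower (hx i) hS hu2

theorem Adm.poor_upper {a : ℕ} (ha : 1 ≤ a) : ∃ x ∈ FF d fL fA, ∀ u : ℝ, (a:ℝ) ≤ u →
    (coverNum ((2:ℝ) ^ (-u)) (Metric.closedBall x ((2:ℝ) ^ (-(a:ℝ))) ∩ FF d fL fA) : ℝ) ≤
      (3 * (2:ℝ) ^ (((⌈u⌉₊ + d : ℕ) : ℝ) * fL (a / (⌈u⌉₊ + d : ℕ)))) ^ d := by
  obtain ⟨x, hx, hC⟩ := h.poor ha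
  refine ⟨WithLp.toLp 2 (fun _ => x), fun _ => hx, fun u hu => ?_⟩
  have haT : a ≤ ⌈u⌉₊ + d := by
    have : (a:ℝ) ≤ ⌈u⌉₊ := hu.trans (Nat.le_ceil u)
    have : a ≤ ⌈u⌉₊ := by exact_mod_cast this
    omega
  apply cover_upper (T := ⌈u⌉₊ + d)
  · rw [two_pow_mul_half]
    exact pow_le_r (Nat.le_ceil u)
  · intro i
    obtain ⟨C, hC1, hC2⟩ := hC _ haT
    refine ⟨C, hC1, fun y hy hyx => hC2 y hy (hyx.trans ?_)⟩
    exact r_le_pow le_rfl

theorem Adm.rich_lower {a : ℕ} (ha : 1 ≤ a) : ∃ x ∈ FF d fL fA, ∀ u : ℝ, a + d ≤ ⌊u⌋₊ - 2 → 2 ≤ ⌊u⌋₊ →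
    ((1 / 2) ^ (d + 1) * (2:ℝ) ^ (((⌊u⌋₊ - 2 : ℕ) : ℝ) * fA (a / (⌊u⌋₊ - 2 : ℕ)))) ^ d ≤
    (coverNum ((2:ℝ) ^ (-u)) (Metric.closedBall x ((2:ℝ) ^ (-(a:ℝ))) ∩ FF d fL fA) : ℝ) := by
  obtain ⟨x, hx, hC⟩ := h.rich ha d
  refine ⟨WithLp.toLp 2 (fun _ => x), fun _ => hx, fun u hu hu2 => ?_⟩
  have hu0 : 0 < u := by
    have : (2:ℝ) ≤ ⌊u⌋₊ := by exact_mod_cast hu2
    by_contra hcon
    push Not at hcon
    rw [Nat.floor_of_nonpos hcon] at this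
    norm_num at this
  apply cover_lower (S := a + d) (T := ⌊u⌋₊ - 2) (by positivity) (by positivity)
  · have h1 : (1 / 2 : ℝ) ^ (⌊u⌋₊ - 2) = 4 * (1 / 2) ^ ⌊u⌋₊ := by
      have : ⌊u⌋₊ = (⌊u⌋₊ - 2) + 2 := by omega
      conv_rhs => rw [this, pow_add]
      ring
    have h2 : (2:ℝ) ^ (-u) ≤ (1 / 2) ^ ⌊u⌋₊ := r_le_pow (Nat.floor_le hu0.le)
    have h3 : (0:ℝ) < (2:ℝ) ^ (-u) := by positivity
    rw [h1]
    linarith
  · rw [two_pow_mul_half]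
    exact pow_le_r le_rfl
  · intro i
    exact hC _ hu

end

/-! ### The spectra and the result -/

theorem exists_u {r : ℝ} (hr : r ∈ Ioo (0:ℝ) 1) : ∃ u : ℝ, 0 < u ∧ r = (2:ℝ) ^ (-u) := by
  refine ⟨-Real.logb 2 r, ?_, ?_⟩
  · have := Real.logb_neg (by norm_num : (1:ℝ) < 2) hr.1 hr.2
    linarith
  · rw [neg_neg, Real.rpow_logb (by norm_num) (by norm_num) hr.1]

theorem r_mem {u : ℝ} (hu : 0 < u) : (2:ℝ) ^ (-u) ∈ Ioo (0:ℝ) 1 :=
  ⟨by positivity, Real.rpow_lt_one_of_one_lt_of_neg (by norm_num) (by linarith)⟩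

theorem r_rpow (u θ : ℝ) : ((2:ℝ) ^ (-u)) ^ θ = (2:ℝ) ^ (-(θ * u)) := by
  rw [← Real.rpow_mul (by norm_num)]; congr 1; ring

theorem ratio (u θ s : ℝ) : ((2:ℝ) ^ (-(θ * u)) / (2:ℝ) ^ (-u)) ^ s = (2:ℝ) ^ ((1 - θ) * s * u) := by
  rw [← Real.rpow_sub (by norm_num), ← Real.rpow_mul (by norm_num)]; congr 1; ring

theorem mul_rpow_pow {c E : ℝ} (d : ℕ) :
    (c * (2:ℝ) ^ E) ^ d = c ^ d * (2:ℝ) ^ (d * E) := by
  rw [mul_pow, ← Real.rpow_natCast ((2:ℝ) ^ E) d, ← Real.rpow_mul (by norm_num), mul_comm E]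

theorem tend_T1 (d : ℕ) : Tendsto (fun u : ℝ => ((⌈u⌉₊ + d : ℕ) : ℝ) / u) atTop (𝓝 1) := by
  have h1 : Tendsto (fun u : ℝ => (⌈u⌉₊ : ℝ) / u + (d:ℝ) / u) atTop (𝓝 (1 + 0)) :=
    tendsto_nat_ceil_div_atTop.add (tendsto_const_nhds.div_atTop tendsto_id)
  rw [add_zero] at h1
  refine h1.congr fun u => ?_
  push_cast; ring

theorem tend_T2 : Tendsto (fun u : ℝ => ((⌊u⌋₊ - 2 : ℕ) : ℝ) / u) atTop (𝓝 1) := by
  have h1 : Tendsto (fun u : ℝ => (⌊u⌋₊ : ℝ) / u - (2:ℝ) / u) atTop (𝓝 (1 - 0)) :=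
    tendsto_nat_floor_div_atTop.sub (tendsto_const_nhds.div_atTop tendsto_id)
  rw [sub_zero] at h1
  refine h1.congr' ?_
  filter_upwards [eventually_ge_atTop (2:ℝ)] with u hu
  have : 2 ≤ ⌊u⌋₊ := Nat.le_floor (by exact_mod_cast hu)
  rw [Nat.cast_sub this]
  push_cast; ring

theorem tend_S1 {θ : ℝ} (hθ : 0 < θ) : Tendsto (fun u : ℝ => ((⌊θ * u⌋₊ : ℕ) : ℝ) / u) atTop (𝓝 θ) :=
  tendsto_nat_floor_mul_div_atTop hθ.le

theorem tend_S2 {θ : ℝ} (hθ : 0 < θ) (d : ℕ) :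
    Tendsto (fun u : ℝ => ((⌈θ * u⌉₊ + d + 1 : ℕ) : ℝ) / u) atTop (𝓝 θ) := by
  have h1 : Tendsto (fun u : ℝ => (⌈θ * u⌉₊ : ℝ) / u + ((d:ℝ) + 1) / u) atTop (𝓝 (θ + 0)) :=
    (tendsto_nat_ceil_mul_div_atTop hθ.le).add (tendsto_const_nhds.div_atTop tendsto_id)
  rw [add_zero] at h1
  refine h1.congr fun u => ?_
  push_cast; ring

theorem tend_u {θ : ℝ} (hθ : 0 < θ) : Tendsto (fun a : ℕ => (a:ℝ) / θ) atTop atTop :=
  tendsto_natCast_atTop_atTop.atTop_div_const hθ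

theorem tend_a {θ : ℝ} (hθ : 0 < θ) : Tendsto (fun a : ℕ => (a:ℝ) / ((a:ℝ) / θ)) atTop (𝓝 θ) := by
  refine (tendsto_const_nhds (x := θ)).congr' ?_
  filter_upwards [eventually_ge_atTop 1] with a ha
  have : (a:ℝ) ≠ 0 := by exact_mod_cast (by omega : a ≠ 0)
  field_simp

section
variable {d : ℕ} {fL fA : ℝ → ℝ} (h : Adm fL fA)
include h

theorem Adm.FF_nonempty : (FF d fL fA).Nonempty := by
  obtain ⟨x, hx, -⟩ := h.poor_upper (d := d) (le_refl 1)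
  exact ⟨x, hx⟩

theorem Adm.A_mem {θ s : ℝ} (hθ : θ ∈ Ioo (0:ℝ) 1) (hs : 0 ≤ s) (hlt : d * fA θ < (1 - θ) * s) :
    ∃ C : ℝ, 0 < C ∧ ∀ r ∈ Ioo (0:ℝ) 1, ∀ x ∈ FF d fL fA,
    (coverNum r (Metric.closedBall x (r ^ θ) ∩ FF d fL fA) : ℝ) ≤ C * (r ^ θ / r) ^ s := by
  have h1 := (lim_exp (h.contA hθ) tendsto_id (tend_T1 d) (tend_S1 hθ.1)).const_mul (d:ℝ)
  have h2 := h1.eventually_lt_const hlt
  obtain ⟨u₀, hu₀⟩ := (h2.and (eventually_ge_atTop (max 1 (1 / θ)))).exists_forall_of_atTop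
  obtain ⟨K, hK⟩ := coverNum_bdd d (r_mem (show 0 < max u₀ 1 by positivity)).1
  have h1θ : 0 < 1 - θ := by linarith [hθ.2]
  refine ⟨12 ^ d + K, by positivity, fun r hr x hx => ?_⟩
  obtain ⟨u, hu, rfl⟩ := exists_u hr
  rw [r_rpow, ratio]
  have hge : (1:ℝ) ≤ 2 ^ ((1 - θ) * s * u) := Real.one_le_rpow (by norm_num) (by positivity)
  rcases le_or_gt (max u₀ 1) u with hle | hgt
  · obtain ⟨h3, h4⟩ := hu₀ u ((le_max_left _ _).trans hle)
    simp only [id_eq] at h3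
    have h5 : 1 ≤ θ * u := by
      have := (le_max_right 1 (1 / θ)).trans h4
      rw [div_le_iff₀ hθ.1] at this
      linarith
    refine (h.all_upper hθ h5 hx).trans ?_
    rw [mul_rpow_pow]
    have h6 : (d:ℝ) * (((⌈u⌉₊ + d : ℕ) : ℝ) * fA ((⌊θ * u⌋₊ : ℕ) / (⌈u⌉₊ + d : ℕ))) ≤ (1 - θ) * s * u := by
      rw [← mul_div_assoc, div_lt_iff₀ hu] at h3
      exact h3.le
    have h7 : (2:ℝ) ^ ((d:ℝ) * (((⌈u⌉₊ + d : ℕ) : ℝ) * fA ((⌊θ * u⌋₊ : ℕ) / (⌈u⌉₊ + d : ℕ)))) ≤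
        2 ^ ((1 - θ) * s * u) := Real.rpow_le_rpow_of_exponent_le (by norm_num) h6
    have h8 : (0:ℝ) ≤ K := by positivity
    have h9 : (0:ℝ) < 12 ^ d := by positivity
    nlinarith
  · have h3 : (2:ℝ) ^ (-(max u₀ 1)) ≤ 2 ^ (-u) := Real.rpow_le_rpow_of_exponent_le (by norm_num) (by linarith)
    have h4 : (2:ℝ) ^ (-(θ * u)) ≤ 1 := Real.rpow_le_one_of_one_le_of_nonpos (by norm_num) (by nlinarith [hθ.1])
    have h5 : (coverNum ((2:ℝ) ^ (-u)) (Metric.closedBall x ((2:ℝ) ^ (-(θ * u))) ∩ FF d fL fA) : ℝ) ≤ K := by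
      exact_mod_cast hK _ x _ _ h4 h3
    have h8 : (0:ℝ) ≤ K := by positivity
    have h9 : (0:ℝ) < 12 ^ d := by positivity
    nlinarith

theorem Adm.L_mem {θ s : ℝ} (hθ : θ ∈ Ioo (0:ℝ) 1) (hs : 0 ≤ s) (hlt : (1 - θ) * s < d * fL θ) :
    ∃ C : ℝ, 0 < C ∧ ∀ r ∈ Ioo (0:ℝ) 1, ∀ x ∈ FF d fL fA,
    C * (r ^ θ / r) ^ s ≤ (coverNum r (Metric.closedBall x (r ^ θ) ∩ FF d fL fA) : ℝ) := by
  have h1 := (lim_exp (h.contL hθ) tendsto_id tend_T2 (tend_S2 hθ.1 d)).const_mul (d:ℝ)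
  have h2 := h1.eventually_const_lt hlt
  have h1θ : 0 < 1 - θ := by linarith [hθ.2]
  obtain ⟨u₀, hu₀⟩ := (h2.and ((eventually_ge_atTop (1 / θ)).and
    (eventually_ge_atTop (((d:ℝ) + 5) / (1 - θ))))).exists_forall_of_atTop
  refine ⟨(1 / 2) ^ d * 2 ^ (-((1 - θ) * s * (max u₀ 1))), by positivity, fun r hr x hx => ?_⟩
  obtain ⟨u, hu, rfl⟩ := exists_u hr
  rw [r_rpow, ratio]
  have hge : (1:ℝ) ≤ 2 ^ ((1 - θ) * s * u) := Real.one_le_rpow (by norm_num) (by positivity)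
  have hhalf : ((1:ℝ) / 2) ^ d ≤ 1 := pow_le_one₀ (by norm_num) (by norm_num)
  have hm1 : (2:ℝ) ^ (-((1 - θ) * s * (max u₀ 1))) ≤ 1 :=
    Real.rpow_le_one_of_one_le_of_nonpos (by norm_num) (by
      have : 0 ≤ (1 - θ) * s * (max u₀ 1) := by positivity
      linarith)
  have hm0 : (0:ℝ) < (2:ℝ) ^ (-((1 - θ) * s * (max u₀ 1))) := by positivity
  have hh0 : (0:ℝ) < (1 / 2) ^ d := by positivity
  rcases le_or_gt (max u₀ 1) u with hle | hgt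
  · obtain ⟨h3, h4, h4'⟩ := hu₀ u ((le_max_left _ _).trans hle)
    simp only [id_eq] at h3
    have h5 : 1 ≤ θ * u := by
      rw [div_le_iff₀ hθ.1] at h4
      linarith
    have h5' : ⌈θ * u⌉₊ + d + 1 ≤ ⌊u⌋₊ - 2 := by
      rw [div_le_iff₀ h1θ] at h4'
      have c1 : (⌈θ * u⌉₊ : ℝ) < θ * u + 1 := Nat.ceil_lt_add_one (by linarith)
      have c2 : u < ⌊u⌋₊ + 1 := Nat.lt_floor_add_one u
      have c3 : ((⌈θ * u⌉₊ + d + 3 : ℕ) : ℝ) < ((⌊u⌋₊ : ℕ) : ℝ) := by push_cast; nlinarith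
      have c4 : ⌈θ * u⌉₊ + d + 3 < ⌊u⌋₊ := by exact_mod_cast c3
      omega
    refine le_trans ?_ (h.all_lower hθ h5 h5' hx)
    rw [mul_rpow_pow]
    have h6 : (1 - θ) * s * u ≤ (d:ℝ) * (((⌊u⌋₊ - 2 : ℕ) : ℝ) * fL ((⌈θ * u⌉₊ + d + 1 : ℕ) / (⌊u⌋₊ - 2 : ℕ))) := by
      rw [← mul_div_assoc, lt_div_iff₀ hu] at h3
      exact h3.le
    have h7 := Real.rpow_le_rpow_of_exponent_le (x := 2) (by norm_num) h6
    calc (1 / 2 : ℝ) ^ d * 2 ^ (-((1 - θ) * s * (max u₀ 1))) * 2 ^ ((1 - θ) * s * u)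
        ≤ (1 / 2 : ℝ) ^ d * 1 * 2 ^ ((1 - θ) * s * u) := by gcongr
      _ ≤ _ := by rw [mul_one]; gcongr
  · have h3 : (1:ℝ) ≤ (coverNum ((2:ℝ) ^ (-u)) (Metric.closedBall x ((2:ℝ) ^ (-(θ * u))) ∩ FF d fL fA) : ℝ) := by
      exact_mod_cast one_le_coverNum (r_mem hu).1 (by positivity) hx
    refine le_trans ?_ h3
    calc (1 / 2 : ℝ) ^ d * 2 ^ (-((1 - θ) * s * (max u₀ 1))) * 2 ^ ((1 - θ) * s * u)
        ≤ 1 * 2 ^ (-((1 - θ) * s * (max u₀ 1))) * 2 ^ ((1 - θ) * s * u) := by gcongr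
      _ = 2 ^ (-((1 - θ) * s * (max u₀ 1)) + (1 - θ) * s * u) := by rw [one_mul, Real.rpow_add (by norm_num)]
      _ ≤ 1 := by
          apply Real.rpow_le_one_of_one_le_of_nonpos (by norm_num)
          have : 0 ≤ (1 - θ) * s := by positivity
          nlinarith

theorem Adm.A_le_of_mem {θ s C : ℝ} (hθ : θ ∈ Ioo (0:ℝ) 1) (hC : 0 < C)
    (hs : ∀ r ∈ Ioo (0:ℝ) 1, ∀ x ∈ FF d fL fA,
    (coverNum r (Metric.closedBall x (r ^ θ) ∩ FF d fL fA) : ℝ) ≤ C * (r ^ θ / r) ^ s) :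
    d * fA θ ≤ (1 - θ) * s := by
  have h1θ : 0 < 1 - θ := by linarith [hθ.2]
  have hu := tend_u hθ.1
  have h1 := (lim_exp (h.contA hθ) hu (tend_T2.comp hu) (tend_a hθ.1)).const_mul (d:ℝ)
  have h2 : Tendsto (fun a : ℕ => (Real.logb 2 C + d * (d + 1)) / ((a:ℝ) / θ) + (1 - θ) * s) atTop
      (𝓝 (0 + (1 - θ) * s)) := (tendsto_const_nhds.div_atTop hu).add tendsto_const_nhds
  rw [zero_add] at h2
  refine le_of_tendsto_of_tendsto h1 h2 ?_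
  have hgap : Tendsto (fun a : ℕ => (a:ℝ) / θ * (1 - θ)) atTop atTop := hu.atTop_mul_const h1θ
  filter_upwards [eventually_ge_atTop 1, hgap.eventually_ge_atTop ((d:ℝ) + 4)] with a ha hga
  have hapos : (0:ℝ) < a := by exact_mod_cast ha
  have hupos : (0:ℝ) < (a:ℝ) / θ := div_pos hapos hθ.1
  have e0 : θ * ((a:ℝ) / θ) = a := by field_simp [hθ.1.ne']
  have hfl : a + d + 2 ≤ ⌊(a:ℝ) / θ⌋₊ := by
    apply Nat.le_floor
    push_cast
    nlinarith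
  obtain ⟨x, hx, hlow⟩ := h.rich_lower (d := d) ha
  have h3 := hlow ((a:ℝ) / θ) (by omega) (by omega)
  have h4 := hs _ (r_mem hupos) x hx
  rw [r_rpow, ratio, e0] at h4
  have h5 := h3.trans h4
  rw [mul_rpow_pow] at h5
  have h6 := Real.logb_le_logb_of_le (b := 2) (by norm_num) (by positivity) h5
  rw [Real.logb_mul (by positivity) (by positivity), Real.logb_mul (by positivity) (by positivity),
    Real.logb_rpow (by norm_num) (by norm_num), Real.logb_rpow (by norm_num) (by norm_num), ← pow_mul,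
    Real.logb_pow, one_div, Real.logb_inv, Real.logb_self_eq_one (by norm_num)] at h6
  push_cast at h6
  rw [← mul_div_assoc, ← sub_nonneg]
  have e : (Real.logb 2 C + d * (d + 1)) / ((a:ℝ) / θ) + (1 - θ) * s -
      d * (((⌊(a:ℝ) / θ⌋₊ - 2 : ℕ) : ℝ) * fA (a / (⌊(a:ℝ) / θ⌋₊ - 2 : ℕ))) / ((a:ℝ) / θ) =
      (Real.logb 2 C + d * (d + 1) + (1 - θ) * s * ((a:ℝ) / θ) -
      d * (((⌊(a:ℝ) / θ⌋₊ - 2 : ℕ) : ℝ) * fA (a / (⌊(a:ℝ) / θ⌋₊ - 2 : ℕ)))) / ((a:ℝ) / θ) := by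
    have := hupos.ne'
    generalize (a:ℝ) / θ = v at this ⊢
    field_simp
  rw [e]
  apply div_nonneg _ hupos.le
  linarith

theorem Adm.L_ge_of_mem {θ s C : ℝ} (hθ : θ ∈ Ioo (0:ℝ) 1) (hC : 0 < C)
    (hs : ∀ r ∈ Ioo (0:ℝ) 1, ∀ x ∈ FF d fL fA,
    C * (r ^ θ / r) ^ s ≤ (coverNum r (Metric.closedBall x (r ^ θ) ∩ FF d fL fA) : ℝ)) :
    (1 - θ) * s ≤ d * fL θ := by
  have h1θ : 0 < 1 - θ := by linarith [hθ.2]
  have hu := tend_u hθ.1
  have h1 := (lim_exp (h.contL hθ) hu ((tend_T1 d).comp hu) (tend_a hθ.1)).const_mul (d:ℝ)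
  have h2 : Tendsto (fun a : ℕ => (Real.logb 2 C - d * Real.logb 2 3) / ((a:ℝ) / θ) + (1 - θ) * s) atTop
      (𝓝 (0 + (1 - θ) * s)) := (tendsto_const_nhds.div_atTop hu).add tendsto_const_nhds
  rw [zero_add] at h2
  refine le_of_tendsto_of_tendsto h2 h1 ?_
  filter_upwards [eventually_ge_atTop 1] with a ha
  have hapos : (0:ℝ) < a := by exact_mod_cast ha
  have hupos : (0:ℝ) < (a:ℝ) / θ := div_pos hapos hθ.1
  have e0 : θ * ((a:ℝ) / θ) = a := by field_simp [hθ.1.ne']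
  obtain ⟨x, hx, hup⟩ := h.poor_upper (d := d) ha
  have h3 := hup ((a:ℝ) / θ) (by rw [le_div_iff₀ hθ.1]; nlinarith [hθ.2])
  have h4 := hs _ (r_mem hupos) x hx
  rw [r_rpow, ratio, e0] at h4
  have h5 := h4.trans h3
  rw [mul_rpow_pow] at h5
  have h6 := Real.logb_le_logb_of_le (b := 2) (by norm_num) (by positivity) h5
  rw [Real.logb_mul (by positivity) (by positivity), Real.logb_mul (by positivity) (by positivity),
    Real.logb_rpow (by norm_num) (by norm_num), Real.logb_rpow (by norm_num) (by norm_num),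
    Real.logb_pow] at h6
  rw [← mul_div_assoc, ← sub_nonneg]
  have e : d * (((⌈(a:ℝ) / θ⌉₊ + d : ℕ) : ℝ) * fL (a / (⌈(a:ℝ) / θ⌉₊ + d : ℕ))) / ((a:ℝ) / θ) -
      ((Real.logb 2 C - d * Real.logb 2 3) / ((a:ℝ) / θ) + (1 - θ) * s) =
      (d * (((⌈(a:ℝ) / θ⌉₊ + d : ℕ) : ℝ) * fL (a / (⌈(a:ℝ) / θ⌉₊ + d : ℕ))) -
      (Real.logb 2 C - d * Real.logb 2 3) - (1 - θ) * s * ((a:ℝ) / θ)) / ((a:ℝ) / θ) := by
    have := hupos.ne'
    generalize (a:ℝ) / θ = v at this ⊢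
    field_simp
    ring
  rw [e]
  apply div_nonneg _ hupos.le
  linarith

theorem Adm.assouad_eq {θ : ℝ} (hθ : θ ∈ Ioo (0:ℝ) 1) :
    assouadSpectrum (FF d fL fA) θ = d * fA θ / (1 - θ) := by
  have h1θ : 0 < 1 - θ := by linarith [hθ.2]
  have hA0 : 0 ≤ fA θ := (h.L0 θ ⟨hθ.1, hθ.2.le⟩).trans (h.L_le_A ⟨hθ.1, hθ.2.le⟩)
  unfold assouadSpectrum
  have hmem : ∀ s, d * fA θ / (1 - θ) < s → s ∈ {s : ℝ | 0 ≤ s ∧ ∃ C : ℝ, 0 < C ∧ ∀ r ∈ Ioo (0:ℝ) 1,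
      ∀ x ∈ FF d fL fA, (coverNum r (Metric.closedBall x (r ^ θ) ∩ FF d fL fA) : ℝ) ≤ C * (r ^ θ / r) ^ s} := by
    intro s hs
    have h0 : 0 ≤ d * fA θ / (1 - θ) := by positivity
    refine ⟨h0.trans hs.le, h.A_mem hθ (h0.trans hs.le) ?_⟩
    rw [div_lt_iff₀ h1θ] at hs
    linarith
  apply le_antisymm
  · refine le_of_forall_pos_le_add fun ε hε => ?_
    apply csInf_le ⟨0, fun s hs => hs.1⟩
    exact hmem _ (by linarith)
  · apply le_csInf ⟨_, hmem _ (lt_add_one _)⟩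
    rintro s ⟨-, C, hC, hs⟩
    rw [div_le_iff₀ h1θ]
    have := h.A_le_of_mem hθ hC hs
    linarith

theorem Adm.lower_eq {θ : ℝ} (hθ : θ ∈ Ioo (0:ℝ) 1) :
    lowerSpectrum (FF d fL fA) θ = d * fL θ / (1 - θ) := by
  have h1θ : 0 < 1 - θ := by linarith [hθ.2]
  have hL0 : 0 ≤ fL θ := h.L0 θ ⟨hθ.1, hθ.2.le⟩
  have h0 : 0 ≤ d * fL θ / (1 - θ) := by positivity
  unfold lowerSpectrum
  have hmem : ∀ s, 0 ≤ s → s < d * fL θ / (1 - θ) → s ∈ {s : ℝ | 0 ≤ s ∧ ∃ C : ℝ, 0 < C ∧ ∀ r ∈ Ioo (0:ℝ) 1,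
      ∀ x ∈ FF d fL fA, C * (r ^ θ / r) ^ s ≤ coverNum r (Metric.closedBall x (r ^ θ) ∩ FF d fL fA)} := by
    intro s hs0 hs
    refine ⟨hs0, h.L_mem hθ hs0 ?_⟩
    rw [lt_div_iff₀ h1θ] at hs
    linarith
  have hub : ∀ s ∈ {s : ℝ | 0 ≤ s ∧ ∃ C : ℝ, 0 < C ∧ ∀ r ∈ Ioo (0:ℝ) 1,
      ∀ x ∈ FF d fL fA, C * (r ^ θ / r) ^ s ≤ coverNum r (Metric.closedBall x (r ^ θ) ∩ FF d fL fA)},
      s ≤ d * fL θ / (1 - θ) := by
    rintro s ⟨-, C, hC, hs⟩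
    rw [le_div_iff₀ h1θ]
    have := h.L_ge_of_mem hθ hC hs
    linarith
  have hzero : (0:ℝ) ∈ {s : ℝ | 0 ≤ s ∧ ∃ C : ℝ, 0 < C ∧ ∀ r ∈ Ioo (0:ℝ) 1,
      ∀ x ∈ FF d fL fA, C * (r ^ θ / r) ^ s ≤ coverNum r (Metric.closedBall x (r ^ θ) ∩ FF d fL fA)} := by
    refine ⟨le_rfl, 1, one_pos, fun r hr x hx => ?_⟩
    rw [Real.rpow_zero, mul_one]
    exact_mod_cast one_le_coverNum hr.1 (Real.rpow_nonneg hr.1.le θ) hx
  apply le_antisymm
  · exact csSup_le ⟨0, hzero⟩ hub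
  · refine le_of_forall_pos_le_add fun ε hε => ?_
    rcases le_or_gt (d * fL θ / (1 - θ)) ε with hle | hgt
    · have := le_csSup ⟨_, hub⟩ hzero
      linarith
    · have := le_csSup ⟨_, hub⟩ (hmem (d * fL θ / (1 - θ) - ε) (by linarith) (by linarith))
      linarith

end


theorem condJ_imp {φL φA : ℝ → ℝ} {D : ℝ} (hL : ∀ t ∈ Ioc (0:ℝ) 1, φL t ∈ Icc 0 D)
    (hJ : CondJ φL φA) : CondJ' φL φA := by
  have hne : (φL '' Ioc (0:ℝ) 1).Nonempty := ⟨_, 1, one_mem_Ioc, rfl⟩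
  have hbdd : BddAbove (φL '' Ioc (0:ℝ) 1) := by
    refine ⟨D, ?_⟩
    rintro _ ⟨t, ht, rfl⟩
    exact (hL t ht).2
  obtain ⟨c, hc⟩ : ∃ c, c = sSup (φL '' Ioc (0:ℝ) 1) := ⟨_, rfl⟩
  have hle : ∀ t ∈ Ioc (0:ℝ) 1, φL t ≤ c := fun t ht => by rw [hc]; exact le_csSup hbdd ⟨t, ht, rfl⟩
  have hup : ∀ t ∈ Ioc (0:ℝ) 1, φL t ≤ (1 - t) * c := by
    intro t ht
    have h2 : c ≤ (c - φL t) / t := by
      conv_lhs => rw [hc]
      apply csSup_le hne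
      rintro _ ⟨l, hl, rfl⟩
      rw [le_div_iff₀ ht.1]
      have := (hJ l hl t ht).1.1
      have := hle _ (mul_mem_Ioc hl ht)
      linarith
    rw [le_div_iff₀ ht.1] at h2
    linarith
  have hlow : ∀ t ∈ Ioc (0:ℝ) 1, (1 - t) * c ≤ φA t := by
    intro t ht
    refine le_of_forall_pos_le_add fun ε hε => ?_
    obtain ⟨_, ⟨l, hl, rfl⟩, hlt⟩ := exists_lt_of_lt_csSup hne (show c - ε < sSup (φL '' Ioc (0:ℝ) 1) by linarith)
    have h1 := (hJ l hl t ht).1.2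
    have h2 := (hJ t ht l hl).1.1
    rw [mul_comm t l] at h2
    have h3 := hle l hl
    have h4 := (hL t ht).1
    have h5 : 0 ≤ l * φL t := mul_nonneg hl.1.le h4
    nlinarith [ht.1]
  intro l hl t ht
  have h1 := hJ l hl t ht
  have h2 := hJ t ht l hl
  rw [mul_comm t l] at h2
  refine ⟨h1.1, ?_, ?_, h1.2.2⟩
  · have e1 := hup t ht
    have e2 := hlow l hl
    have e3 : (1 - l) * φL t ≤ (1 - t) * φA l := by
      have a1 : (1 - l) * φL t ≤ (1 - l) * ((1 - t) * c) := mul_le_mul_of_nonneg_left e1 (by linarith [hl.2])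
      have a2 : (1 - t) * ((1 - l) * c) ≤ (1 - t) * φA l := mul_le_mul_of_nonneg_left e2 (by linarith [ht.2])
      linarith
    linarith [h2.2.1]
  · have := (hL l hl).1
    have : 0 ≤ t * φL l := mul_nonneg ht.1.le this
    linarith [h1.2.1]

theorem adm_of {d : ℕ} {φL φA : ℝ → ℝ} (hL : ∀ t ∈ Ioc (0:ℝ) 1, φL t ∈ Icc (0:ℝ) d)
    (hLip : ∀ s ∈ Ioc (0:ℝ) 1, ∀ t ∈ Ioc (0:ℝ) 1, |φA s - φA t| ≤ d * |s - t|) (hA1 : φA 1 = 0)
    (hJ : CondJ' φL φA) : Adm (fun t => φL t * (d:ℝ)⁻¹) (fun t => φA t * (d:ℝ)⁻¹) := by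
  have hc : (0:ℝ) ≤ (d:ℝ)⁻¹ := by positivity
  constructor
  · intro t ht
    exact mul_nonneg (hL t ht).1 hc
  · simp [hA1]
  · intro s hs t ht
    rw [← sub_mul, abs_mul, abs_of_nonneg hc]
    calc |φA s - φA t| * (d:ℝ)⁻¹ ≤ d * |s - t| * (d:ℝ)⁻¹ := mul_le_mul_of_nonneg_right (hLip s hs t ht) hc
      _ = (d * (d:ℝ)⁻¹) * |s - t| := by ring
      _ ≤ 1 * |s - t| := mul_le_mul_of_nonneg_right mul_inv_le_one (abs_nonneg _)
      _ = _ := one_mul _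
  · intro s hs t ht hst
    have hl : s / t ∈ Ioc (0:ℝ) 1 := ⟨div_pos hs.1 ht.1, (div_le_one ht.1).2 hst⟩
    have := (hJ _ hl t ht).2.2.1
    rw [div_mul_cancel₀ _ ht.1.ne'] at this
    exact mul_le_mul_of_nonneg_right this hc
  · intro l hl t ht
    have h1 := (hJ l hl t ht).1
    have e : φL (l * t) * (d:ℝ)⁻¹ - t * (φL l * (d:ℝ)⁻¹) = (φL (l * t) - t * φL l) * (d:ℝ)⁻¹ := by ring
    rw [e]
    exact ⟨mul_le_mul_of_nonneg_right h1.1 hc, mul_le_mul_of_nonneg_right h1.2 hc⟩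
  · intro l hl t ht
    have h1 := (hJ l hl t ht).2
    have e : φA (l * t) * (d:ℝ)⁻¹ - t * (φA l * (d:ℝ)⁻¹) = (φA (l * t) - t * φA l) * (d:ℝ)⁻¹ := by ring
    rw [e]
    exact ⟨mul_le_mul_of_nonneg_right h1.1 hc, mul_le_mul_of_nonneg_right (by linarith [h1.2.2]) hc⟩

/-- **Joint realisability of lower and Assouad spectra.**  If `φL, φA : (0,1] → [0,d]` satisfy
condition (J) (or the weaker condition `CondJ'`), `φA` is `d`-Lipschitz and `φA 1 = 0`, then some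
nonempty `F ⊆ ℝ^d` has `(1-θ) dim_L^θ F = φL θ` and `(1-θ) dim_A^θ F = φA θ` for every
`θ ∈ (0,1]`. -/
theorem result (d : ℕ) (φL φA : ℝ → ℝ) (hL : ∀ t ∈ Ioc (0:ℝ) 1, φL t ∈ Icc (0:ℝ) d)
    (hA : ∀ t ∈ Ioc (0:ℝ) 1, φA t ∈ Icc (0:ℝ) d)
    (hLip : ∀ s ∈ Ioc (0:ℝ) 1, ∀ t ∈ Ioc (0:ℝ) 1, |φA s - φA t| ≤ d * |s - t|) (hA1 : φA 1 = 0)
    (hJ : CondJ φL φA ∨ CondJ' φL φA) :
    ∃ F : Set (EuclideanSpace ℝ (Fin d)), F.Nonempty ∧ ∀ θ ∈ Ioc (0:ℝ) 1,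
      (1 - θ) * lowerSpectrum F θ = φL θ ∧ (1 - θ) * assouadSpectrum F θ = φA θ := by
  have hJ' : CondJ' φL φA := hJ.elim (condJ_imp hL) id
  have h := adm_of hL hLip hA1 hJ'
  refine ⟨_, h.FF_nonempty (d := d), fun θ hθ => ?_⟩
  have hz : ∀ t ∈ Ioc (0:ℝ) 1, (d:ℝ) * (φL t * (d:ℝ)⁻¹) = φL t ∧ (d:ℝ) * (φA t * (d:ℝ)⁻¹) = φA t := by
    intro t ht
    rcases eq_or_ne d 0 with hd | hd
    · subst hd
      have h1 := hL t ht
      have h2 := hA t ht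
      simp only [Nat.cast_zero, Icc_self, mem_singleton_iff] at h1 h2
      simp [h1, h2]
    · have : (d:ℝ) ≠ 0 := by exact_mod_cast hd
      constructor <;> field_simp
  rcases eq_or_lt_of_le hθ.2 with rfl | hlt
  · have h1 := (hJ' 1 one_mem_Ioc 1 one_mem_Ioc).1.1
    have h2 := (hL 1 one_mem_Ioc).1
    simp only [mul_one, one_mul, sub_self, zero_mul] at h1 ⊢
    exact ⟨(le_antisymm h1 h2).symm, hA1.symm⟩
  · have h1θ : 1 - θ ≠ 0 := by linarith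
    rw [h.lower_eq ⟨hθ.1, hlt⟩, h.assouad_eq ⟨hθ.1, hlt⟩, (hz θ hθ).1, (hz θ hθ).2]
    constructor <;> field_simp

end Pool.Agent.Results.MP_8b4afa_an.JointRealisable
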